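import Pool.Agent.Run7.h662.DC.Core3

set_option autoImplicit false

namespace Run7.h662.DC

open Finset

theorem t_CORE : S_CORE := by
  classical
  intro q k0 n W V lo hi hq hk0 hW H hP J hJ
  obtain ⟨y0, hy1, hy2, hav⟩ := exists_y0 q (30 * W) (by omega) V
  have hqJ : 0 < q ^ J := pow_pos (by omega) J
  have h1 : 61 * W + #V * (61 * W) ≥ 0 := Nat.zero_le _
  have hV1 : 2 * ((#V + 1) * (2 * (30 * W) + 1)) ≤ 1000 * W * (#V + 1) := by
    have h2 : (#V + 1) * (2 * (30 * W) + 1) ≤ (#V + 1) * (61 * W) :=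
      Nat.mul_le_mul_left _ (by omega)
    have h3 : 1000 * W * (#V + 1) = 1000 * (W * (#V + 1)) := by ring
    have h4 : (#V + 1) * (61 * W) = 61 * (W * (#V + 1)) := by ring
    rw [h3]
    rw [h4] at h2
    omega
  have hn : q ^ J * y0 ≤ n :=
    (Nat.mul_le_mul_left _ (by omega : y0 ≤ 1000 * W * (#V + 1))).trans hJ
  have C : Ctx q k0 n W y0 J V lo hi := by
    refine ⟨hq, hk0, hW, H, hP, ?_, hav, hn⟩
    have h2 : 1 * (2 * (30 * W) + 1) ≤ (#V + 1) * (2 * (30 * W) + 1) :=
      Nat.mul_le_mul_right _ (by omega)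
    omega
  -- total of all levels
  have hsum : ∑ j ∈ range J, #(Vl q y0 V j) ≤ #V := by
    rw [← card_biUnion]
    · apply card_le_card
      intro x hx
      rw [mem_biUnion] at hx
      obtain ⟨j, _, hxj⟩ := hx
      exact (mem_Vl.1 hxj).1
    · intro a _ b _ hab
      rw [Function.onFun, disjoint_left]
      intro x hx hx'
      exact hab (C.level_unique hx hx')
  obtain ⟨c0, hc0⟩ : ∃ c0, c0 = 1920 * (k0 + Nat.log 2 #V + 1) := ⟨_, rfl⟩
  have hgr : ∑ j ∈ range J, j ≤ c0 * #V := by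
    calc ∑ j ∈ range J, j ≤ ∑ j ∈ range J, c0 * #(Vl q y0 V j) := by
          apply sum_le_sum
          intro j hj
          rw [mem_range] at hj
          have := C.growth j hj
          rwa [← hc0] at this
      _ = c0 * ∑ j ∈ range J, #(Vl q y0 V j) := by rw [mul_sum]
      _ ≤ c0 * #V := Nat.mul_le_mul_left _ hsum
  have hid := Finset.sum_range_id_mul_two J
  have h5 : 10000 * (k0 + Nat.log 2 #V + 1) * #V =
      5 * (c0 * #V) + 400 * ((k0 + Nat.log 2 #V + 1) * #V) := by rw [hc0]; ring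
  rw [h5]
  rcases Nat.lt_or_ge J 2 with hJ2 | hJ2
  · interval_cases J
    · simp
    · have hp := C.N_pos (j := 0) (by omega)
      have hp2 : #(Vl q y0 V 0) ≤ #V := card_le_card (filter_subset _ _)
      have h6 : 1 * 1 ≤ (k0 + Nat.log 2 #V + 1) * #V := Nat.mul_le_mul (by omega) (by omega)
      omega
  · have h7 : J ^ 2 ≤ 2 * (J * (J - 1)) := by
      obtain ⟨t, rfl⟩ := Nat.exists_eq_add_of_le hJ2
      have : 2 + t - 1 = 1 + t := by omega
      rw [this]
      nlinarith
    rw [← hid] at h7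
    omega

end Run7.h662.DC
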