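import Pool.Agent.Run7.h662.DC.Iface

set_option autoImplicit false

namespace Run7.h662.DC

open Finset

lemma exists_y0 (q M : ℕ) (hq : 2 ≤ q) (V : Finset ℕ) :
    ∃ y0, (#V + 1) * (2 * M + 1) ≤ y0 ∧ y0 < 2 * ((#V + 1) * (2 * M + 1)) ∧
      ∀ c ∈ V, ∀ j : ℕ, q ^ j * y0 + M < c ∨ c + M < q ^ j * y0 := by
  classical
  by_contra hcon
  push Not at hcon
  set Y := (#V + 1) * (2 * M + 1) with hY
  have hYpos : 0 < Y := by positivity
  have h1 : ∀ y ∈ Ico Y (2 * Y), ∃ j : ℕ, ∃ c ∈ V, c ≤ q ^ j * y + M ∧ q ^ j * y ≤ c + M := by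
    intro y hy
    rw [mem_Ico] at hy
    obtain ⟨c, hc, j, h1, h2⟩ := hcon y hy.1 hy.2
    exact ⟨j, c, hc, h1, h2⟩
  choose! j hj using h1
  have h2 : #(Ico Y (2 * Y)) ≤ #(V.biUnion (fun c => Icc (c - M) (c + M))) := by
    apply card_le_card_of_injOn (fun y => q ^ (j y) * y)
    · intro y hy
      obtain ⟨c, hc, h3, h4⟩ := hj y hy
      simp only [coe_biUnion, Set.mem_iUnion, coe_Icc, Set.mem_Icc]
      exact ⟨c, by simpa using hc, by omega, h4⟩
    · have key : ∀ y ∈ Ico Y (2 * Y), ∀ y' ∈ Ico Y (2 * Y), j y ≤ j y' →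
          q ^ (j y) * y = q ^ (j y') * y' → y = y' := by
        intro y hy y' hy' hle he
        rw [mem_Ico] at hy hy'
        obtain ⟨t, ht⟩ := Nat.exists_eq_add_of_le hle
        rw [ht, pow_add, mul_assoc] at he
        have h5 : y = q ^ t * y' := Nat.eq_of_mul_eq_mul_left (by positivity) he
        rcases Nat.eq_zero_or_pos t with h0 | h0
        · rw [h0] at h5; simpa using h5
        · exfalso
          have h6 : q ≤ q ^ t := Nat.le_self_pow (by omega) q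
          have h7 : 2 * Y ≤ q ^ t * y' := Nat.mul_le_mul (hq.trans h6) hy'.1
          omega
      intro y hy y' hy' he
      simp only at he
      rcases le_total (j y) (j y') with h | h
      · exact key y (by simpa using hy) y' (by simpa using hy') h he
      · exact (key y' (by simpa using hy') y (by simpa using hy) h he.symm).symm
  have h3 : #(V.biUnion (fun c => Icc (c - M) (c + M))) ≤ #V * (2 * M + 1) := by
    refine card_biUnion_le_card_mul _ _ _ (fun c _ => ?_)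
    rw [Nat.card_Icc]; omega
  rw [Nat.card_Ico] at h2
  have : Y = #V * (2 * M + 1) + (2 * M + 1) := by rw [hY]; ring
  omega

/-- the context of the counting argument -/
structure Ctx (q k0 n W y0 J : ℕ) (V : Finset ℕ) (lo hi : ℕ → ℕ) : Prop where
  hq : 3 ≤ q
  hk0 : 1 ≤ k0
  hW : 1 ≤ W
  H : VSys q k0 n W V lo hi
  hP : 100 * W < q ^ k0
  hy : 60 * W < y0
  hav : ∀ c ∈ V, ∀ j : ℕ, q ^ j * y0 + 30 * W < c ∨ c + 30 * W < q ^ j * y0
  hn : q ^ J * y0 ≤ n

/-- level sets -/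
def Vl (q y0 : ℕ) (V : Finset ℕ) (j : ℕ) : Finset ℕ :=
  V.filter (fun c => q ^ j * y0 ≤ c ∧ c < q ^ (j + 1) * y0)

lemma mem_Vl {q y0 : ℕ} {V : Finset ℕ} {j c : ℕ} :
    c ∈ Vl q y0 V j ↔ c ∈ V ∧ q ^ j * y0 ≤ c ∧ c < q ^ (j + 1) * y0 := by
  simp [Vl]

/-- dirty levels -/
def Dirty (q W y0 : ℕ) (V : Finset ℕ) (j : ℕ) : Prop :=
  ∃ x ∈ Vl q y0 V j, ∃ x' ∈ Vl q y0 V j, x < x' ∧ x' ≤ x + 30 * W

namespace Ctx

variable {q k0 n W y0 J : ℕ} {V : Finset ℕ} {lo hi : ℕ → ℕ}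

section
variable (C : Ctx q k0 n W y0 J V lo hi)
include C

lemma q0 : 0 < q := by have := C.hq; omega

lemma ylt {a b : ℕ} (h : a < b) : 3 * (q ^ a * y0) ≤ q ^ b * y0 := by
  obtain ⟨t, ht⟩ := Nat.exists_eq_add_of_lt h
  have h1 : q ^ b * y0 = q ^ t * (q * (q ^ a * y0)) := by rw [ht]; ring
  rw [h1]
  have h2 : 1 ≤ q ^ t := Nat.one_le_pow _ _ C.q0
  have h3 := C.hq
  calc 3 * (q ^ a * y0) ≤ q * (q ^ a * y0) := Nat.mul_le_mul_right _ h3
    _ = 1 * (q * (q ^ a * y0)) := (one_mul _).symm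
    _ ≤ _ := Nat.mul_le_mul_right _ h2

lemma yle {a b : ℕ} (h : a ≤ b) : q ^ a * y0 ≤ q ^ b * y0 :=
  Nat.mul_le_mul_right _ (Nat.pow_le_pow_right C.q0 h)

lemma y0le (a : ℕ) : y0 ≤ q ^ a * y0 := by
  have := C.yle (Nat.zero_le a)
  simpa using this

/-- strict form of membership -/
lemma mem_strict {j c : ℕ} (h : c ∈ Vl q y0 V j) :
    q ^ j * y0 + 30 * W < c ∧ c + 30 * W < q ^ (j + 1) * y0 := by
  rw [mem_Vl] at h
  obtain ⟨h1, h2, h3⟩ := h
  have h4 := C.hav c h1 j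
  have h5 := C.hav c h1 (j + 1)
  omega

/-- two close elements lie in the same level -/
lemma same_level {j c c' : ℕ} (h : c ∈ Vl q y0 V j) (h' : c' ∈ V) (h1 : c ≤ c' + 30 * W)
    (h2 : c' ≤ c + 30 * W) : c' ∈ Vl q y0 V j := by
  have h3 := C.mem_strict h
  rw [mem_Vl]
  exact ⟨h', by omega, by omega⟩

/-- uniqueness of the level -/
lemma level_unique {i j c : ℕ} (h : c ∈ Vl q y0 V i) (h' : c ∈ Vl q y0 V j) : i = j := by
  rw [mem_Vl] at h h'
  by_contra hne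
  rcases Nat.lt_or_gt_of_ne hne with hl | hl
  · have := C.yle (show i + 1 ≤ j by omega)
    omega
  · have := C.yle (show j + 1 ≤ i by omega)
    omega

lemma exists_level {c : ℕ} (h : c ∈ V) (hc : y0 ≤ c) : ∃ j, c ∈ Vl q y0 V j := by
  classical
  have hq := C.hq
  have hy := C.hy
  have hex : ∃ j, c < q ^ (j + 1) * y0 := by
    refine ⟨c, ?_⟩
    have h1 : c < q ^ c := Nat.lt_pow_self (by omega)
    have h2 : q ^ c ≤ q ^ (c + 1) := Nat.pow_le_pow_right C.q0 (by omega)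
    calc c < q ^ (c + 1) := lt_of_lt_of_le h1 h2
      _ ≤ _ := Nat.le_mul_of_pos_right _ (by omega)
  refine ⟨Nat.find hex, ?_⟩
  rw [mem_Vl]
  refine ⟨h, ?_, Nat.find_spec hex⟩
  rcases Nat.eq_zero_or_pos (Nat.find hex) with h0 | h0
  · rw [h0]; simpa using hc
  · have := Nat.find_min hex (show Nat.find hex - 1 < Nat.find hex by omega)
    rw [Nat.sub_add_cancel h0] at this
    omega

lemma lohi {c : ℕ} (h : c ∈ V) : lo c ≤ c ∧ c ≤ hi c ∧ hi c ≤ lo c + W :=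
  ⟨(C.H.1 c h).2.1, (C.H.1 c h).2.2.1, (C.H.1 c h).2.2.2⟩

/-- transfer -/
lemma transfer {j c : ℕ} (h : c ∈ Vl q y0 V j) {k : ℕ} (hk : k0 ≤ k) (hJ : j + k + 1 ≤ J) :
    ∃ c' ∈ Vl q y0 V (j + k), q ^ k * lo c ≤ c' ∧ c' ≤ q ^ k * hi c := by
  have h1 := C.mem_strict h
  have hV := (mem_Vl.1 h).1
  obtain ⟨h2, h3, h4⟩ := C.lohi hV
  have hW := C.hW
  have h5 : q ^ k * (q ^ (j + 1) * y0) = q ^ (j + k + 1) * y0 := by ring
  have h6 : q ^ k * (q ^ j * y0) = q ^ (j + k) * y0 := by ring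
  have h7 : q ^ (j + k + 1) * y0 ≤ n := (C.yle hJ).trans C.hn
  have h8 : q ^ k * hi c < q ^ (j + k + 1) * y0 := by
    rw [← h5]
    exact Nat.mul_lt_mul_of_pos_left (by omega) (pow_pos C.q0 k)
  have h9 := C.y0le j
  have h10 := C.hy
  obtain ⟨c', hc', h11, h12⟩ := C.H.2.2.1 c hV (by omega) k hk (by omega)
  refine ⟨c', ?_, h11, h12⟩
  rw [mem_Vl]
  refine ⟨hc', ?_, by omega⟩
  rw [← h6]
  refine le_trans ?_ h11
  exact Nat.mul_le_mul_left _ (by omega)

end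

open Classical in
/-- the transfer map -/
noncomputable def tr (q : ℕ) (V : Finset ℕ) (lo hi : ℕ → ℕ) (k c : ℕ) : ℕ :=
  if h : ∃ c' ∈ V, q ^ k * lo c ≤ c' ∧ c' ≤ q ^ k * hi c then h.choose else 0

section
variable (C : Ctx q k0 n W y0 J V lo hi)
include C

lemma tr_spec {j c : ℕ} (h : c ∈ Vl q y0 V j) {k : ℕ} (hk : k0 ≤ k) (hJ : j + k + 1 ≤ J) :
    tr q V lo hi k c ∈ Vl q y0 V (j + k) ∧ q ^ k * lo c ≤ tr q V lo hi k c ∧
      tr q V lo hi k c ≤ q ^ k * hi c := by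
  obtain ⟨c', hc', h1, h2⟩ := C.transfer h hk hJ
  have hex : ∃ c' ∈ V, q ^ k * lo c ≤ c' ∧ c' ≤ q ^ k * hi c := ⟨c', (mem_Vl.1 hc').1, h1, h2⟩
  have h3 := hex.choose_spec
  have h4 : tr q V lo hi k c = hex.choose := by rw [tr, dif_pos hex]
  rw [← h4] at h3
  refine ⟨?_, h3.2⟩
  have h5 := C.mem_strict h
  have hV := (mem_Vl.1 h).1
  obtain ⟨h6, h7, h8⟩ := C.lohi hV
  have hW := C.hW
  rw [mem_Vl]
  refine ⟨h3.1, ?_, ?_⟩
  · have h9 : q ^ k * (q ^ j * y0) = q ^ (j + k) * y0 := by ring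
    rw [← h9]
    exact le_trans (Nat.mul_le_mul_left _ (by omega)) h3.2.1
  · have h9 : q ^ k * (q ^ (j + 1) * y0) = q ^ (j + k + 1) * y0 := by ring
    rw [← h9]
    refine lt_of_le_of_lt h3.2.2 ?_
    exact Nat.mul_lt_mul_of_pos_left (by omega) (pow_pos C.q0 k)

/-- the transfer map is increasing with gaps -/
lemma tr_gap {i j c c' : ℕ} (h : c ∈ Vl q y0 V i) (h' : c' ∈ Vl q y0 V j) (hlt : c < c')
    {k : ℕ} (hk : k0 ≤ k) (hJ : i + k + 1 ≤ J) (hJ' : j + k + 1 ≤ J) :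
    tr q V lo hi k c + q ^ k ≤ tr q V lo hi k c' := by
  have h1 := (C.tr_spec h hk hJ).2.2
  have h2 := (C.tr_spec h' hk hJ').2.1
  have h3 := C.H.2.1 c (mem_Vl.1 h).1 c' (mem_Vl.1 h').1 hlt
  calc tr q V lo hi k c + q ^ k ≤ q ^ k * hi c + q ^ k := by omega
    _ = q ^ k * (hi c + 1) := by ring
    _ ≤ q ^ k * lo c' := Nat.mul_le_mul_left _ h3
    _ ≤ _ := h2

lemma tr_inj {i j c c' : ℕ} (h : c ∈ Vl q y0 V i) (h' : c' ∈ Vl q y0 V j)
    {k : ℕ} (hk : k0 ≤ k) (hJ : i + k + 1 ≤ J) (hJ' : j + k + 1 ≤ J)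
    (he : tr q V lo hi k c = tr q V lo hi k c') : c = c' := by
  have hp : 0 < q ^ k := pow_pos C.q0 k
  rcases Nat.lt_trichotomy c c' with hl | hl | hl
  · have := C.tr_gap h h' hl hk hJ hJ'
    omega
  · exact hl
  · have := C.tr_gap h' h hl hk hJ' hJ
    omega

lemma qk_big {k : ℕ} (hk : k0 ≤ k) : 100 * W < q ^ k :=
  lt_of_lt_of_le C.hP (Nat.pow_le_pow_right C.q0 hk)

lemma N_mono {j k : ℕ} (hk : k0 ≤ k) (hJ : j + k + 1 ≤ J) :
    #(Vl q y0 V j) ≤ #(Vl q y0 V (j + k)) := by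
  apply card_le_card_of_injOn (tr q V lo hi k)
  · intro c hc
    exact (C.tr_spec hc hk hJ).1
  · intro c hc c' hc' he
    exact C.tr_inj hc hc' hk hJ hJ he

lemma N_dirty {j k : ℕ} (hk : k0 ≤ k) (hJ : j + k + 1 ≤ J) (hd : Dirty q W y0 V (j + k)) :
    #(Vl q y0 V j) + 1 ≤ #(Vl q y0 V (j + k)) := by
  classical
  by_contra hcon
  have h1 := C.N_mono hk hJ
  have h2 : #(Vl q y0 V (j + k)) ≤ #((Vl q y0 V j).image (tr q V lo hi k)) := by
    rw [card_image_of_injOn]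
    · omega
    · intro c hc c' hc' he
      exact C.tr_inj hc hc' hk hJ hJ he
  have h3 : (Vl q y0 V j).image (tr q V lo hi k) = Vl q y0 V (j + k) := by
    apply eq_of_subset_of_card_le _ h2
    intro z hz
    rw [mem_image] at hz
    obtain ⟨c, hc, rfl⟩ := hz
    exact (C.tr_spec hc hk hJ).1
  obtain ⟨x, hx, x', hx', hlt, hle⟩ := hd
  rw [← h3, mem_image] at hx hx'
  obtain ⟨c, hc, rfl⟩ := hx
  obtain ⟨c', hc', rfl⟩ := hx'
  have h5 := C.qk_big hk
  rcases Nat.lt_trichotomy c c' with hl | hl | hl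
  · have := C.tr_gap hc hc' hl hk hJ hJ
    have := C.hW
    omega
  · rw [hl] at hlt; omega
  · have := C.tr_gap hc' hc hl hk hJ hJ
    omega

lemma N_pos {j : ℕ} (hJ : j + 1 ≤ J) : 1 ≤ #(Vl q y0 V j) := by
  have h1 : 3 * (q ^ j * y0) ≤ n := (C.ylt (show j < J by omega)).trans C.hn
  have h2 := C.y0le j
  have h3 := C.hy
  obtain ⟨c, hc, h4, h5⟩ := C.H.2.2.2.2 (q ^ j * y0) (by omega) h1
  have h6 : c ∈ Vl q y0 V j := by
    rw [mem_Vl]
    have := C.ylt (show j < j + 1 by omega)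
    exact ⟨hc, by omega, by omega⟩
  exact card_pos.2 ⟨c, h6⟩

open Classical in
/-- number of dirty levels -/
lemma card_dirty {i : ℕ} (hJ : i + k0 + 1 ≤ J) :
    #{j ∈ range (i + 1) | Dirty q W y0 V j} ≤ k0 * #(Vl q y0 V (i + k0)) := by
  set S := {j ∈ range (i + 1) | Dirty q W y0 V j} with hS
  have hk0 := C.hk0
  have h1 : ∀ a ∈ S.image (fun j => j % k0), #{j ∈ S | j % k0 = a} ≤ #(Vl q y0 V (i + k0)) := by
    intro a _
    have h2 : #{j ∈ S | j % k0 = a} ≤ #(Icc 1 (#(Vl q y0 V (i + k0)))) := by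
      have hmem : ∀ j, j ∈ ({j ∈ S | j % k0 = a} : Finset ℕ) → j ≤ i ∧ Dirty q W y0 V j ∧ j % k0 = a := by
        intro j hj
        rw [mem_filter, hS, mem_filter, mem_range] at hj
        exact ⟨by omega, hj.1.2, hj.2⟩
      have hstrict : ∀ j, j ∈ ({j ∈ S | j % k0 = a} : Finset ℕ) → ∀ j', j' ∈ ({j ∈ S | j % k0 = a} : Finset ℕ) →
          j < j' → #(Vl q y0 V j) + 1 ≤ #(Vl q y0 V j') := by
        intro j hj j' hj' hlt
        obtain ⟨h3, h4, h5⟩ := hmem j hj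
        obtain ⟨h3', h4', h5'⟩ := hmem j' hj'
        have h6 : k0 ≤ j' - j := by
          have h7 : k0 ∣ j' - j := (Nat.modEq_iff_dvd' (le_of_lt hlt)).1 (h5.trans h5'.symm)
          exact Nat.le_of_dvd (by omega) h7
        have h8 : j + (j' - j) = j' := by omega
        have := C.N_dirty (j := j) h6 (by omega) (by rw [h8]; exact h4')
        rwa [h8] at this
      apply card_le_card_of_injOn (fun j => #(Vl q y0 V j))
      · intro j hj
        obtain ⟨h3, h4, h5⟩ := hmem j hj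
        simp only [coe_Icc, Set.mem_Icc]
        refine ⟨C.N_pos (by omega), ?_⟩
        have h6 : j + (i + k0 - j) = i + k0 := by omega
        have := C.N_mono (j := j) (k := i + k0 - j) (by omega) (by omega)
        rwa [h6] at this
      · intro j hj j' hj' he
        simp only at he
        rcases Nat.lt_trichotomy j j' with hl | hl | hl
        · have := hstrict j hj j' hj' hl
          omega
        · exact hl
        · have := hstrict j' hj' j hj hl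
          omega
    rwa [Nat.card_Icc, Nat.add_sub_cancel] at h2
  have h2 := card_le_mul_card_image S _ h1
  have h3 : #(S.image (fun j => j % k0)) ≤ k0 := by
    calc #(S.image (fun j => j % k0)) ≤ #(range k0) := by
          apply card_le_card
          intro z hz
          rw [mem_image] at hz
          obtain ⟨j, _, rfl⟩ := hz
          rw [mem_range]
          exact Nat.mod_lt _ (by omega)
      _ = k0 := card_range _
  calc #S ≤ #(Vl q y0 V (i + k0)) * #(S.image (fun j => j % k0)) := h2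
    _ ≤ #(Vl q y0 V (i + k0)) * k0 := Nat.mul_le_mul_left _ h3
    _ = _ := mul_comm _ _

end

end Ctx

end Run7.h662.DC
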