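import Pool.Agent.Run7.h662.DC.Core1

set_option autoImplicit false

namespace Run7.h662.DC

open Finset

namespace Ctx

variable {q k0 n W y0 J : ℕ} {V : Finset ℕ} {lo hi : ℕ → ℕ}

/-- the three levels around `i` -/
def UU (q y0 : ℕ) (V : Finset ℕ) (i : ℕ) : Finset ℕ :=
  V.filter (fun c => q ^ (i - 1) * y0 ≤ c ∧ c < q ^ (i + 2) * y0)

lemma mem_UU {q y0 : ℕ} {V : Finset ℕ} {i c : ℕ} :
    c ∈ UU q y0 V i ↔ c ∈ V ∧ q ^ (i - 1) * y0 ≤ c ∧ c < q ^ (i + 2) * y0 := by
  simp [UU]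

/-- small balls -/
def b3 (U : Finset ℕ) (D z : ℕ) : ℕ := #{w ∈ U | 3 * w ≤ 3 * z + D ∧ 3 * z ≤ 3 * w + D}

/-- big balls -/
def bR (U : Finset ℕ) (D z : ℕ) : ℕ := #{w ∈ U | w ≤ z + 2 * D ∧ z ≤ w + 2 * D}

lemma b3_pos {U : Finset ℕ} {D z : ℕ} (h : z ∈ U) : 1 ≤ b3 U D z := by
  apply card_pos.2
  exact ⟨z, by rw [mem_filter]; exact ⟨h, by omega, by omega⟩⟩

lemma b3_le {U : Finset ℕ} {D z : ℕ} : b3 U D z ≤ #U := card_filter_le _ _

lemma bR_le_b3 {U : Finset ℕ} {D D' z : ℕ} (h : 6 * D ≤ D') : bR U D z ≤ b3 U D' z := by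
  apply card_le_card
  intro w hw
  rw [mem_filter] at hw ⊢
  exact ⟨hw.1, by omega, by omega⟩

lemma b3_add {U : Finset ℕ} {D u v : ℕ} (hD : 0 < D) (h1 : 10 * u + 9 * D ≤ 10 * v)
    (h2 : 10 * v ≤ 10 * u + 11 * D) :
    b3 U D u + b3 U D v ≤ bR U D u ∧ b3 U D u + b3 U D v ≤ bR U D v := by
  have hdisj : Disjoint ({w ∈ U | 3 * w ≤ 3 * u + D ∧ 3 * u ≤ 3 * w + D})
      ({w ∈ U | 3 * w ≤ 3 * v + D ∧ 3 * v ≤ 3 * w + D}) := by
    rw [disjoint_left]
    intro w hw hw'
    rw [mem_filter] at hw hw'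
    omega
  constructor
  · rw [b3, b3, ← card_union_of_disjoint hdisj]
    apply card_le_card
    intro w hw
    rw [mem_union, mem_filter, mem_filter] at hw
    rw [mem_filter]
    rcases hw with hw | hw
    · exact ⟨hw.1, by omega, by omega⟩
    · exact ⟨hw.1, by omega, by omega⟩
  · rw [b3, b3, ← card_union_of_disjoint hdisj]
    apply card_le_card
    intro w hw
    rw [mem_union, mem_filter, mem_filter] at hw
    rw [mem_filter]
    rcases hw with hw | hw
    · exact ⟨hw.1, by omega, by omega⟩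
    · exact ⟨hw.1, by omega, by omega⟩

/-- doubling increases the logarithm -/
lemma log_step {U : Finset ℕ} {D D' z : ℕ} (hz : z ∈ U) (h : 6 * D ≤ D')
    (h2 : 2 * b3 U D z ≤ bR U D z) : Nat.log 2 (b3 U D z) + 1 ≤ Nat.log 2 (b3 U D' z) := by
  have h3 := bR_le_b3 (U := U) (z := z) h
  have h4 := b3_pos (D := D) hz
  have h5 : Nat.log 2 (b3 U D z * 2) = Nat.log 2 (b3 U D z) + 1 :=
    Nat.log_mul_base (by norm_num) (by omega)
  rw [← h5]
  exact Nat.log_mono_right (by omega)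

section
variable (C : Ctx q k0 n W y0 J V lo hi)
include C

lemma level_range {u i : ℕ} (hu : u ∈ V) (h1 : q ^ (i - 1) * y0 ≤ u) (h2 : u < q ^ (i + 2) * y0) :
    ∃ l, u ∈ Vl q y0 V l ∧ i - 1 ≤ l ∧ l ≤ i + 1 := by
  obtain ⟨l, hl⟩ := C.exists_level hu ((C.y0le _).trans h1)
  refine ⟨l, hl, ?_, ?_⟩
  · by_contra hcon
    rw [mem_Vl] at hl
    have := C.yle (show l + 1 ≤ i - 1 by omega)
    omega
  · by_contra hcon
    rw [mem_Vl] at hl
    have := C.yle (show i + 2 ≤ l by omega)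
    omega

lemma Vl_card_le {l i : ℕ} (hi : l ≤ i + 1) (hJ : i + k0 + 2 ≤ J) :
    #(Vl q y0 V l) ≤ #(Vl q y0 V (i + 1 + k0)) := by
  have h1 : l + (i + 1 + k0 - l) = i + 1 + k0 := by omega
  have := C.N_mono (j := l) (k := i + 1 + k0 - l) (by omega) (by omega)
  rwa [h1] at this

lemma UU_card {i : ℕ} (hJ : i + k0 + 2 ≤ J) :
    #(UU q y0 V i) ≤ 3 * #(Vl q y0 V (i + 1 + k0)) := by
  classical
  have h1 : UU q y0 V i ⊆ (Icc (i - 1) (i + 1)).biUnion (fun l => Vl q y0 V l) := by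
    intro u hu
    rw [mem_UU] at hu
    obtain ⟨l, hl, h2, h3⟩ := C.level_range hu.1 hu.2.1 hu.2.2
    rw [mem_biUnion]
    exact ⟨l, by rw [mem_Icc]; exact ⟨h2, h3⟩, hl⟩
  calc #(UU q y0 V i) ≤ _ := card_le_card h1
    _ ≤ #(Icc (i - 1) (i + 1)) * #(Vl q y0 V (i + 1 + k0)) := by
        refine card_biUnion_le_card_mul _ _ _ (fun l hl => ?_)
        rw [mem_Icc] at hl
        exact C.Vl_card_le hl.2 hJ
    _ ≤ _ := by
        apply Nat.mul_le_mul_right
        rw [Nat.card_Icc]; omega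

/-- near pairs -/
lemma near_count {i δ : ℕ} (hJ : i + k0 + 2 ≤ J) (hδ : 30 * W < δ) (T : Finset ℕ)
    (hT : ∀ t ∈ T, t ∈ V ∧ y0 ≤ t ∧ t < q ^ (i + 2) * y0 ∧ δ ≤ t + W ∧ t ≤ 6 * δ) :
    #T ≤ 3 * #(Vl q y0 V (i + 1 + k0)) := by
  classical
  rcases T.eq_empty_or_nonempty with h0 | h0
  · rw [h0]; simp
  obtain ⟨t0, ht0, hmin⟩ := exists_min_image T id h0
  obtain ⟨h1, h2, h3, h4, h5⟩ := hT t0 ht0
  obtain ⟨l, hl⟩ := C.exists_level h1 h2
  have hl' := hl
  rw [mem_Vl] at hl'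
  have hW := C.hW
  have h6 : T ⊆ (range 3).biUnion (fun a => T ∩ Vl q y0 V (l + a)) := by
    intro t ht
    obtain ⟨g1, g2, g3, g4, g5⟩ := hT t ht
    obtain ⟨m, hm⟩ := C.exists_level g1 g2
    have hm' := hm
    rw [mem_Vl] at hm'
    have g6 : t0 ≤ t := hmin t ht
    have g7 : l ≤ m := by
      by_contra hcon
      have := C.yle (show m + 1 ≤ l by omega)
      omega
    have g8 : m < l + 3 := by
      by_contra hcon
      have e1 := C.yle (show l + 3 ≤ m by omega)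
      have e2 := C.ylt (show l + 1 < l + 2 by omega)
      have e3 := C.ylt (show l + 2 < l + 3 by omega)
      omega
    rw [mem_biUnion]
    refine ⟨m - l, by rw [mem_range]; omega, ?_⟩
    rw [mem_inter]
    refine ⟨ht, ?_⟩
    rwa [show l + (m - l) = m by omega]
  calc #T ≤ _ := card_le_card h6
    _ ≤ #(range 3) * #(Vl q y0 V (i + 1 + k0)) := by
        refine card_biUnion_le_card_mul _ _ _ (fun a _ => ?_)
        rcases (T ∩ Vl q y0 V (l + a)).eq_empty_or_nonempty with he | ⟨t, ht⟩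
        · rw [he]; simp
        · rw [mem_inter] at ht
          obtain ⟨g1, g2, g3, g4, g5⟩ := hT t ht.1
          have g6 := (mem_Vl.1 ht.2).2.1
          have g7 : l + a ≤ i + 1 := by
            by_contra hcon
            have := C.yle (show i + 2 ≤ l + a by omega)
            omega
          exact (card_le_card inter_subset_right).trans (C.Vl_card_le g7 hJ)
    _ = _ := by rw [card_range]

/-- data of a far pair: scaled images -/
lemma far_data {i j δ x u v : ℕ} (hJ : i + k0 + 2 ≤ J) (hδ : 30 * W < δ) (hj1 : 1 ≤ j)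
    (hj : j + k0 + 2 ≤ i) (hx : x ∈ Vl q y0 V j) (hu : u ∈ V) (hv : v ∈ V)
    (huv : v ≤ u + δ + W) (huv' : u + δ ≤ v + W) (hxuv : x = u ∨ x = v) (hfar : 6 * δ < v) :
    ∃ lu lv, u ∈ Vl q y0 V lu ∧ v ∈ Vl q y0 V lv ∧ lu + (i - j) + 1 ≤ J ∧ lv + (i - j) + 1 ≤ J ∧
      tr q V lo hi (i - j) u ∈ UU q y0 V i ∧ tr q V lo hi (i - j) v ∈ UU q y0 V i ∧
      10 * tr q V lo hi (i - j) u + 9 * (q ^ (i - j) * δ) ≤ 10 * tr q V lo hi (i - j) v ∧
      10 * tr q V lo hi (i - j) v ≤ 10 * tr q V lo hi (i - j) u + 11 * (q ^ (i - j) * δ) := by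
  have hW := C.hW
  have hx' := mem_Vl.1 hx
  have e0 := C.ylt (show j - 1 < j by omega)
  have e1 := C.ylt (show j + 1 < j + 2 by omega)
  have hu1 : q ^ (j - 1) * y0 ≤ u := by rcases hxuv with h | h <;> omega
  have hu2 : u < q ^ (j + 2) * y0 := by rcases hxuv with h | h <;> omega
  have hv1 : q ^ (j - 1) * y0 ≤ v := by rcases hxuv with h | h <;> omega
  have hv2 : v < q ^ (j + 2) * y0 := by rcases hxuv with h | h <;> omega
  obtain ⟨lu, hlu, hlu1, hlu2⟩ := C.level_range hu hu1 hu2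
  obtain ⟨lv, hlv, hlv1, hlv2⟩ := C.level_range hv hv1 hv2
  have hk : k0 ≤ i - j := by omega
  obtain ⟨a1, a2, a3⟩ := C.tr_spec hlu hk (by omega)
  obtain ⟨b1, b2, b3⟩ := C.tr_spec hlv hk (by omega)
  refine ⟨lu, lv, hlu, hlv, by omega, by omega, ?_, ?_, ?_⟩
  · rw [mem_Vl] at a1
    rw [mem_UU]
    have f1 := C.yle (show i - 1 ≤ lu + (i - j) by omega)
    have f2 := C.yle (show lu + (i - j) + 1 ≤ i + 2 by omega)
    exact ⟨a1.1, by omega, by omega⟩
  · rw [mem_Vl] at b1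
    rw [mem_UU]
    have f1 := C.yle (show i - 1 ≤ lv + (i - j) by omega)
    have f2 := C.yle (show lv + (i - j) + 1 ≤ i + 2 by omega)
    exact ⟨b1.1, by omega, by omega⟩
  · obtain ⟨u1, u2, u3⟩ := C.lohi hu
    obtain ⟨v1, v2, v3⟩ := C.lohi hv
    set Q := q ^ (i - j) with hQ
    have g1 : Q * hi u ≤ Q * u + Q * W := by
      rw [← Nat.mul_add]; exact Nat.mul_le_mul_left _ (by omega)
    have g2 : Q * u ≤ Q * lo u + Q * W := by
      rw [← Nat.mul_add]; exact Nat.mul_le_mul_left _ (by omega)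
    have g3 : Q * hi v ≤ Q * v + Q * W := by
      rw [← Nat.mul_add]; exact Nat.mul_le_mul_left _ (by omega)
    have g4 : Q * v ≤ Q * lo v + Q * W := by
      rw [← Nat.mul_add]; exact Nat.mul_le_mul_left _ (by omega)
    have g5 : Q * v ≤ Q * u + Q * δ + Q * W := by
      rw [← Nat.mul_add, ← Nat.mul_add]; exact Nat.mul_le_mul_left _ huv
    have g6 : Q * u + Q * δ ≤ Q * v + Q * W := by
      rw [← Nat.mul_add, ← Nat.mul_add]; exact Nat.mul_le_mul_left _ huv'
    have g7 : 30 * (Q * W) ≤ Q * δ := by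
      calc 30 * (Q * W) = Q * (30 * W) := by ring
        _ ≤ _ := Nat.mul_le_mul_left _ (by omega)
    constructor <;> omega

/-- **counting pairs with a given difference** -/
lemma pair_count {i δ : ℕ} (hJ : i + k0 + 2 ≤ J) (hδ : 30 * W < δ) (Z : Finset ℕ)
    (lev u v : ℕ → ℕ)
    (hZ : ∀ x ∈ Z, 1 ≤ lev x ∧ lev x + k0 + 2 ≤ i ∧ x ∈ Vl q y0 V (lev x) ∧ u x ∈ V ∧ v x ∈ V ∧
      v x ≤ u x + δ + W ∧ u x + δ ≤ v x + W ∧ (x = u x ∨ x = v x) ∧ v x < q ^ (i + 2) * y0)
    (hu : ∀ x ∈ Z, ∀ x' ∈ Z, u x = u x' → x = x') (hv : ∀ x ∈ Z, ∀ x' ∈ Z, v x = v x' → x = x') :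
    #Z ≤ 3 * #(Vl q y0 V (i + 1 + k0)) +
      4 * (#(UU q y0 V i) * (Nat.log 2 #(UU q y0 V i) + 1)) := by
  classical
  have hW := C.hW
  have hsplit : #{x ∈ Z | v x ≤ 6 * δ} + #{x ∈ Z | ¬ v x ≤ 6 * δ} = #Z :=
    card_filter_add_card_filter_not _
  -- near part
  have hnear : #{x ∈ Z | v x ≤ 6 * δ} ≤ 3 * #(Vl q y0 V (i + 1 + k0)) := by
    rw [← card_image_of_injOn (f := v) (s := {x ∈ Z | v x ≤ 6 * δ})]
    · apply C.near_count hJ hδ
      intro t ht
      rw [mem_image] at ht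
      obtain ⟨x, hx, rfl⟩ := ht
      rw [mem_filter] at hx
      obtain ⟨h1, h2, h3, h4, h5, h6, h7, h8, h9⟩ := hZ x hx.1
      have h10 := (mem_Vl.1 h3).2.1
      have h11 := C.y0le (lev x)
      refine ⟨h5, ?_, h9, by omega, hx.2⟩
      rcases h8 with h | h <;> omega
    · intro x hx x' hx' he
      rw [mem_coe, mem_filter] at hx hx'
      exact hv x hx.1 x' hx'.1 he
  -- far part
  have hfar : #{x ∈ Z | ¬ v x ≤ 6 * δ} ≤
      4 * (#(UU q y0 V i) * (Nat.log 2 #(UU q y0 V i) + 1)) := by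
    set U := UU q y0 V i with hU
    let K : ℕ → ℕ := fun x => i - lev x
    let uh : ℕ → ℕ := fun x => tr q V lo hi (K x) (u x)
    let vh : ℕ → ℕ := fun x => tr q V lo hi (K x) (v x)
    let DD : ℕ → ℕ := fun x => q ^ (K x) * δ
    let side : ℕ → Bool := fun x => decide (b3 U (DD x) (uh x) ≤ b3 U (DD x) (vh x))
    let zz : ℕ → ℕ := fun x => if side x = true then uh x else vh x
    let Φ : ℕ → Bool × ℕ × ℕ × ℕ := fun x =>
      (side x, zz x, K x % 2, Nat.log 2 (b3 U (DD x) (zz x)))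
    have hdata : ∀ x ∈ ({x ∈ Z | ¬ v x ≤ 6 * δ} : Finset ℕ),
        zz x ∈ U ∧ 2 * b3 U (DD x) (zz x) ≤ bR U (DD x) (zz x) := by
      intro x hx
      rw [mem_filter] at hx
      obtain ⟨h1, h2, h3, h4, h5, h6, h7, h8, h9⟩ := hZ x hx.1
      obtain ⟨lu, lv, g1, g2, g3, g4, g5, g6, g7, g8⟩ :=
        C.far_data hJ hδ h1 h2 h3 h4 h5 h6 h7 h8 (by omega)
      have hDD : 0 < DD x := Nat.mul_pos (pow_pos C.q0 _) (by omega)
      obtain ⟨g9, g10⟩ := b3_add (U := U) hDD g7 g8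
      by_cases hs : b3 U (DD x) (uh x) ≤ b3 U (DD x) (vh x)
      · have e : zz x = uh x := by simp [zz, side, hs]
        rw [e]
        refine ⟨g5, ?_⟩
        have : b3 U (DD x) (uh x) + b3 U (DD x) (vh x) ≤ bR U (DD x) (uh x) := g9
        omega
      · have e : zz x = vh x := by simp [zz, side, hs]
        rw [e]
        refine ⟨g6, ?_⟩
        have : b3 U (DD x) (uh x) + b3 U (DD x) (vh x) ≤ bR U (DD x) (vh x) := g10
        omega
    have hstep : ∀ x ∈ ({x ∈ Z | ¬ v x ≤ 6 * δ} : Finset ℕ),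
        ∀ x' ∈ ({x ∈ Z | ¬ v x ≤ 6 * δ} : Finset ℕ), Φ x = Φ x' → ¬ K x < K x' := by
      intro x hx x' hx' he hlt
      obtain ⟨a1, a2⟩ := hdata x hx
      simp only [Φ, Prod.mk.injEq] at he
      obtain ⟨e1, e2, e3, e4⟩ := he
      have h6 : 6 * DD x ≤ DD x' := by
        have h7 : K x + 2 ≤ K x' := by omega
        have h8 : q ^ (K x) * q ^ 2 ≤ q ^ (K x') := by
          rw [← pow_add]; exact Nat.pow_le_pow_right C.q0 h7
        have h9 : 6 ≤ q ^ 2 := by have := C.hq; nlinarith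
        calc 6 * DD x = (q ^ (K x) * 6) * δ := by simp only [DD]; ring
          _ ≤ (q ^ (K x) * q ^ 2) * δ := Nat.mul_le_mul_right _ (Nat.mul_le_mul_left _ h9)
          _ ≤ q ^ (K x') * δ := Nat.mul_le_mul_right _ h8
      have h7 := log_step a1 h6 a2
      rw [e4, e2] at h7
      omega
    have hmaps : #{x ∈ Z | ¬ v x ≤ 6 * δ} ≤
        #((univ : Finset Bool) ×ˢ U ×ˢ range 2 ×ˢ range (Nat.log 2 #U + 1)) := by
      apply card_le_card_of_injOn Φ
      · intro x hx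
        obtain ⟨a1, a2⟩ := hdata x hx
        simp only [Φ, coe_product, Set.mem_prod, coe_univ, Set.mem_univ, mem_coe, mem_range,
          true_and]
        refine ⟨a1, Nat.mod_lt _ (by norm_num), ?_⟩
        have : b3 U (DD x) (zz x) ≤ #U := b3_le
        have := Nat.log_mono_right (b := 2) this
        omega
      · intro x hx x' hx' he
        have hKK : K x = K x' := by
          have h1 := hstep x hx x' hx' he
          have h2 := hstep x' hx' x hx he.symm
          omega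
        have hxx := (mem_filter.1 (mem_coe.1 hx))
        have hxx' := (mem_filter.1 (mem_coe.1 hx'))
        obtain ⟨h1, h2, h3, h4, h5, h6, h7, h8, h9⟩ := hZ x hxx.1
        obtain ⟨h1', h2', h3', h4', h5', h6', h7', h8', h9'⟩ := hZ x' hxx'.1
        obtain ⟨lu, lv, g1, g2, g3, g4, g5, g6, g7, g8⟩ :=
          C.far_data hJ hδ h1 h2 h3 h4 h5 h6 h7 h8 (by omega)
        obtain ⟨lu', lv', g1', g2', g3', g4', g5', g6', g7', g8'⟩ :=
          C.far_data hJ hδ h1' h2' h3' h4' h5' h6' h7' h8' (by omega)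
        have hk : k0 ≤ K x := by simp only [K]; omega
        simp only [Φ, Prod.mk.injEq] at he
        obtain ⟨e1, e2, e3, e4⟩ := he
        by_cases hs : side x = true
        · have hs' : side x' = true := by rw [← e1]; exact hs
          simp only [zz, hs, hs', if_true] at e2
          apply hu x hxx.1 x' hxx'.1
          have e5 : tr q V lo hi (K x) (u x) = tr q V lo hi (K x) (u x') := by
            have : uh x = uh x' := e2
            simp only [uh] at this
            rwa [← hKK] at this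
          have g3'' : lu' + K x + 1 ≤ J := by rw [hKK]; exact g3'
          exact C.tr_inj g1 g1' hk g3 g3'' e5
        · have hs' : ¬ side x' = true := by rw [← e1]; exact hs
          simp only [zz, hs, hs', if_false, Bool.false_eq_true] at e2
          apply hv x hxx.1 x' hxx'.1
          have e5 : tr q V lo hi (K x) (v x) = tr q V lo hi (K x) (v x') := by
            have : vh x = vh x' := e2
            simp only [vh] at this
            rwa [← hKK] at this
          have g4'' : lv' + K x + 1 ≤ J := by rw [hKK]; exact g4'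
          exact C.tr_inj g2 g2' hk g4 g4'' e5
    refine hmaps.trans ?_
    rw [card_product, card_product, card_product, card_range, card_range, card_univ,
      Fintype.card_bool]
    apply le_of_eq
    ring
  omega

end

end Ctx

end Run7.h662.DC
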