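import Pool.Agent.Run7.h662.DC.Core2

set_option autoImplicit false

namespace Run7.h662.DC

open Finset

namespace Ctx

variable {q k0 n W y0 J : ℕ} {V : Finset ℕ} {lo hi : ℕ → ℕ}

open Classical in
/-- elements in clean levels well below `i` -/
noncomputable def XX (q k0 W y0 : ℕ) (V : Finset ℕ) (i : ℕ) : Finset ℕ :=
  V.filter (fun x => ∃ j, 1 ≤ j ∧ j + k0 + 2 ≤ i ∧ ¬ Dirty q W y0 V j ∧ x ∈ Vl q y0 V j)

lemma mem_XX {q k0 W y0 : ℕ} {V : Finset ℕ} {i x : ℕ} :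
    x ∈ XX q k0 W y0 V i ↔
      x ∈ V ∧ ∃ j, 1 ≤ j ∧ j + k0 + 2 ≤ i ∧ ¬ Dirty q W y0 V j ∧ x ∈ Vl q y0 V j := by
  simp [XX]

section
variable (C : Ctx q k0 n W y0 J V lo hi)
include C

/-- close elements of clean levels coincide -/
lemma clean_eq {j x x' : ℕ} (hc : ¬ Dirty q W y0 V j) (hx : x ∈ Vl q y0 V j) (hx' : x' ∈ V)
    (h1 : x ≤ x' + 30 * W) (h2 : x' ≤ x + 30 * W) : x = x' := by
  have h3 := C.same_level hx hx' h1 h2
  by_contra hne
  apply hc
  rcases Nat.lt_or_gt_of_ne hne with h | h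
  · exact ⟨x, hx, x', h3, h, h2⟩
  · exact ⟨x', h3, x, hx, h, h1⟩

/-- the alternative pair -/
lemma alt_pair {i s x : ℕ} (hJ : i + k0 + 2 ≤ J) (hci : ¬ Dirty q W y0 V i)
    (hs : s ∈ Vl q y0 V i) (hx : x ∈ XX q k0 W y0 V i) :
    ∃ α β, α ∈ UU q y0 V i ∧ β ∈ V ∧ β ≤ α ∧ α + β ≤ s + x + W ∧ s + x ≤ α + β + W ∧
      (30 * W < s - α ∨ 30 * W < α - s) := by
  obtain ⟨hxV, j, hj1, hj, hcj, hxj⟩ := mem_XX.1 hx
  have hs' := mem_Vl.1 hs
  have hxj' := mem_Vl.1 hxj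
  have hW := C.hW
  have hk0 := C.hk0
  have hy := C.hy
  have hx1 : x < q ^ (i - 1) * y0 := lt_of_lt_of_le hxj'.2.2 (C.yle (by omega))
  have e1 := C.ylt (show i - 1 < i by omega)
  have e2 := C.ylt (show i + 1 < i + 2 by omega)
  have e3 := C.ylt (show i + 2 < J by omega)
  have e4 := C.y0le i
  have e5 := C.hn
  have hne : s ≠ x := by omega
  -- an unordered version
  have hgen : ∃ α ∈ V, ∃ β ∈ V, (α, β) ≠ (s, x) ∧ (α, β) ≠ (x, s) ∧
      α + β ≤ s + x + W ∧ s + x ≤ α + β + W ∧ β ≤ α := by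
    obtain ⟨α, hα, β, hβ, h1, h2, h3, h4⟩ :=
      C.H.2.2.2.1 s hs'.1 x hxV hne (by omega) (by omega)
    rcases le_total β α with h | h
    · exact ⟨α, hα, β, hβ, h1, h2, h3, h4, h⟩
    · refine ⟨β, hβ, α, hα, ?_, ?_, by omega, by omega, h⟩
      · intro he
        simp only [Prod.mk.injEq] at he
        exact h2 (by rw [he.1, he.2])
      · intro he
        simp only [Prod.mk.injEq] at he
        exact h1 (by rw [he.1, he.2])
  obtain ⟨α, hα, β, hβ, h1, h2, h3, h4, h5⟩ := hgen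
  refine ⟨α, β, ?_, hβ, h5, h3, h4, ?_⟩
  · rw [mem_UU]
    exact ⟨hα, by omega, by omega⟩
  · by_contra hcon
    have h6 : s = α := C.clean_eq hci hs hα (by omega) (by omega)
    have h7 : x = β := C.clean_eq hcj hxj hβ (by omega) (by omega)
    exact h1 (by rw [h6, h7])

/-- **main inequality** -/
lemma XX_card {i : ℕ} (hJ : i + k0 + 2 ≤ J) (hci : ¬ Dirty q W y0 V i) :
    #(XX q k0 W y0 V i) ≤ #(UU q y0 V i) * (3 * #(Vl q y0 V (i + 1 + k0)) +
      4 * (#(UU q y0 V i) * (Nat.log 2 #(UU q y0 V i) + 1))) := by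
  classical
  have hW := C.hW
  obtain ⟨s, hs⟩ := card_pos.1 (C.N_pos (show i + 1 ≤ J by omega))
  have hs' := mem_Vl.1 hs
  have halt : ∀ x ∈ XX q k0 W y0 V i, ∃ α β, α ∈ UU q y0 V i ∧ β ∈ V ∧ β ≤ α ∧
      α + β ≤ s + x + W ∧ s + x ≤ α + β + W ∧ (30 * W < s - α ∨ 30 * W < α - s) :=
    fun x hx => C.alt_pair hJ hci hs hx
  choose! α β hαβ using halt
  have hlev : ∀ x ∈ XX q k0 W y0 V i, ∃ j, 1 ≤ j ∧ j + k0 + 2 ≤ i ∧ ¬ Dirty q W y0 V j ∧
      x ∈ Vl q y0 V j := fun x hx => (mem_XX.1 hx).2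
  choose! lev hlev using hlev
  have hUy : q ^ (i + 1) * y0 ≤ q ^ (i + 2) * y0 := C.yle (by omega)
  have himg : (XX q k0 W y0 V i).image α ⊆ UU q y0 V i := by
    intro z hz
    rw [mem_image] at hz
    obtain ⟨x, hx, rfl⟩ := hz
    exact (hαβ x hx).1
  have hfib : ∀ a ∈ (XX q k0 W y0 V i).image α, #{x ∈ XX q k0 W y0 V i | α x = a} ≤
      3 * #(Vl q y0 V (i + 1 + k0)) +
      4 * (#(UU q y0 V i) * (Nat.log 2 #(UU q y0 V i) + 1)) := by
    intro a ha
    have haU := himg ha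
    have haU' := mem_UU.1 haU
    have hZmem : ∀ x ∈ ({x ∈ XX q k0 W y0 V i | α x = a} : Finset ℕ),
        x ∈ XX q k0 W y0 V i ∧ α x = a := fun x hx => mem_filter.1 hx
    -- injectivity of β on the fibre
    have hβinj : ∀ x ∈ ({x ∈ XX q k0 W y0 V i | α x = a} : Finset ℕ),
        ∀ x' ∈ ({x ∈ XX q k0 W y0 V i | α x = a} : Finset ℕ), β x = β x' → x = x' := by
      intro x hx x' hx' he
      obtain ⟨g1, g2⟩ := hZmem x hx
      obtain ⟨g1', g2'⟩ := hZmem x' hx'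
      obtain ⟨h1, h2, h3, h4, h5, h6⟩ := hαβ x g1
      obtain ⟨h1', h2', h3', h4', h5', h6'⟩ := hαβ x' g1'
      obtain ⟨l1, l2, l3, l4⟩ := hlev x g1
      exact C.clean_eq l3 l4 (mem_XX.1 g1').1 (by omega) (by omega)
    rw [mem_image] at ha
    obtain ⟨x0, hx0, hax0⟩ := ha
    obtain ⟨k1, k2, k3, k4, k5, k6⟩ := hαβ x0 hx0
    rw [hax0] at k6
    rcases k6 with k6 | k6
    · -- a < s
      apply C.pair_count (δ := s - a) hJ k6 _ lev (fun x => x) β
      · intro x hx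
        obtain ⟨g1, g2⟩ := hZmem x hx
        obtain ⟨h1, h2, h3, h4, h5, h6⟩ := hαβ x g1
        obtain ⟨l1, l2, l3, l4⟩ := hlev x g1
        refine ⟨l1, l2, l4, (mem_XX.1 g1).1, h2, by omega, by omega, Or.inl rfl, ?_⟩
        have := haU'.2.2
        omega
      · intro x _ x' _ he
        exact he
      · exact hβinj
    · -- s < a
      apply C.pair_count (δ := a - s) hJ k6 _ lev β (fun x => x)
      · intro x hx
        obtain ⟨g1, g2⟩ := hZmem x hx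
        obtain ⟨h1, h2, h3, h4, h5, h6⟩ := hαβ x g1
        obtain ⟨l1, l2, l3, l4⟩ := hlev x g1
        refine ⟨l1, l2, l4, h2, (mem_XX.1 g1).1, by omega, by omega, Or.inr rfl, ?_⟩
        have e1 := (mem_Vl.1 l4).2.2
        have e2 := C.yle (show lev x + 1 ≤ i + 2 by omega)
        omega
      · exact hβinj
      · intro x _ x' _ he
        exact he
  have h1 := card_le_mul_card_image (XX q k0 W y0 V i) _ hfib
  refine h1.trans ?_
  rw [mul_comm]
  exact Nat.mul_le_mul_right _ (card_le_card himg)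

/-- main inequality, simplified -/
lemma XX_card' {i : ℕ} (hJ : i + k0 + 2 ≤ J) (hci : ¬ Dirty q W y0 V i) :
    #(XX q k0 W y0 V i) ≤ 120 * #(Vl q y0 V (i + 1 + k0)) ^ 2 * (Nat.log 2 #V + 1) := by
  have h1 := C.XX_card hJ hci
  have h2 := C.UU_card hJ
  set B := #(Vl q y0 V (i + 1 + k0)) with hB
  set U := #(UU q y0 V i) with hU
  have hBV : B ≤ #V := card_le_card (filter_subset _ _)
  have hBpos : 1 ≤ B := C.N_pos (by omega)
  have h3 : Nat.log 2 U ≤ Nat.log 2 B + 2 := by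
    calc Nat.log 2 U ≤ Nat.log 2 (B * 2 * 2) := Nat.log_mono_right (by omega)
      _ = Nat.log 2 B + 2 := by
        rw [Nat.log_mul_base (by norm_num) (by omega), Nat.log_mul_base (by norm_num) (by omega)]
  have h4 : Nat.log 2 B ≤ Nat.log 2 #V := Nat.log_mono_right hBV
  set L := Nat.log 2 #V with hL
  calc #(XX q k0 W y0 V i) ≤ _ := h1
    _ ≤ (3 * B) * (3 * B + 4 * ((3 * B) * (L + 2 + 1))) := by
        apply Nat.mul_le_mul h2
        apply Nat.add_le_add_left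
        apply Nat.mul_le_mul_left
        apply Nat.mul_le_mul h2
        omega
    _ ≤ 120 * B ^ 2 * (L + 1) := by nlinarith [Nat.zero_le (B ^ 2 * L), Nat.zero_le (B ^ 2)]

end

/-- a set of distinct naturals has large sum -/
lemma sum_large (S : Finset ℕ) (t : ℕ) : (#S - (t + 1)) * t ≤ ∑ j ∈ S, j := by
  classical
  have h1 : #{j ∈ S | j ≤ t} + #{j ∈ S | ¬ j ≤ t} = #S := card_filter_add_card_filter_not _
  have h2 : #{j ∈ S | j ≤ t} ≤ t + 1 := by
    calc #{j ∈ S | j ≤ t} ≤ #(range (t + 1)) := by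
          apply card_le_card
          intro j hj
          rw [mem_filter] at hj
          rw [mem_range]; omega
      _ = t + 1 := card_range _
  calc (#S - (t + 1)) * t ≤ #{j ∈ S | ¬ j ≤ t} * t := Nat.mul_le_mul_right _ (by omega)
    _ = ∑ j ∈ {j ∈ S | ¬ j ≤ t}, t := by rw [sum_const, smul_eq_mul]
    _ ≤ ∑ j ∈ {j ∈ S | ¬ j ≤ t}, j := by
        apply sum_le_sum
        intro j hj
        rw [mem_filter] at hj
        omega
    _ ≤ ∑ j ∈ S, j := sum_le_sum_of_subset (filter_subset _ _)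

section
variable (C : Ctx q k0 n W y0 J V lo hi)
include C

open Classical in
/-- total of the clean levels -/
lemma sum_clean {i : ℕ} (S : Finset ℕ)
    (hS : ∀ j ∈ S, 1 ≤ j ∧ j + k0 + 2 ≤ i ∧ ¬ Dirty q W y0 V j) :
    ∑ j ∈ S, #(Vl q y0 V j) ≤ #(XX q k0 W y0 V i) := by
  rw [← card_biUnion]
  · apply card_le_card
    intro x hx
    rw [mem_biUnion] at hx
    obtain ⟨j, hj, hxj⟩ := hx
    obtain ⟨h1, h2, h3⟩ := hS j hj
    rw [mem_XX]
    exact ⟨(mem_Vl.1 hxj).1, j, h1, h2, h3, hxj⟩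
  · intro a _ b _ hab
    rw [Function.onFun, disjoint_left]
    intro x hx hx'
    exact hab (C.level_unique hx hx')

/-- **growth of the levels** -/
theorem growth (i : ℕ) (hi : i + 1 ≤ J) :
    i ≤ 1920 * (k0 + Nat.log 2 #V + 1) * #(Vl q y0 V i) := by
  classical
  induction i using Nat.strong_induction_on with
  | _ i IH =>
  obtain ⟨lam, hlam⟩ : ∃ lam, lam = Nat.log 2 #V + 1 := ⟨_, rfl⟩
  obtain ⟨c0, hc0⟩ : ∃ c0, c0 = 1920 * (k0 + Nat.log 2 #V + 1) := ⟨_, rfl⟩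
  rw [← hc0] at IH ⊢
  have hk0 := C.hk0
  have hNi := C.N_pos hi
  by_cases hsmall : i ≤ c0
  · calc i ≤ c0 * 1 := by omega
      _ ≤ _ := Nat.mul_le_mul_left _ hNi
  push Not at hsmall
  have hc0' : c0 = 1920 * k0 + 1920 * lam := by rw [hc0, hlam]; ring
  have hlam1 : 1 ≤ lam := by omega
  -- dirty levels up to `i - k0`
  obtain ⟨i1, hi1⟩ : ∃ i1, i = i1 + k0 := ⟨i - k0, by omega⟩
  set Dn := #{j ∈ range (i1 + 1) | Dirty q W y0 V j} with hDn
  have hD1 : Dn ≤ k0 * #(Vl q y0 V (i1 + k0)) := C.card_dirty (by omega)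
  rw [← hi1] at hD1
  by_cases hbig : i1 ≤ 8 * Dn
  · have h1 : i ≤ 8 * (k0 * #(Vl q y0 V i)) + k0 * #(Vl q y0 V i) := by
      have : k0 * 1 ≤ k0 * #(Vl q y0 V i) := Nat.mul_le_mul_left _ hNi
      omega
    calc i ≤ 9 * (k0 * #(Vl q y0 V i)) := by omega
      _ = (9 * k0) * #(Vl q y0 V i) := by ring
      _ ≤ c0 * #(Vl q y0 V i) := Nat.mul_le_mul_right _ (by omega)
  push Not at hbig
  -- a clean level `i2`
  obtain ⟨m, hm⟩ : ∃ m, i1 = m + 1 + k0 := ⟨i1 - 1 - k0, by omega⟩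
  have hex : ∃ i2, m ≤ i2 + Dn ∧ i2 ≤ m ∧ ¬ Dirty q W y0 V i2 := by
    by_contra hcon
    push Not at hcon
    have h1 : #(Icc (m - Dn) m) ≤ Dn := by
      rw [hDn]
      apply card_le_card
      intro j hj
      rw [mem_Icc] at hj
      rw [mem_filter, mem_range]
      exact ⟨by omega, hcon j (by omega) hj.2⟩
    rw [Nat.card_Icc] at h1
    omega
  obtain ⟨i2, hi2a, hi2b, hci2⟩ := hex
  have hB1 : #(Vl q y0 V (i2 + 1 + k0)) ≤ #(Vl q y0 V i) := by
    have h1 : i2 + 1 + k0 + (i - (i2 + 1 + k0)) = i := by omega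
    have := C.N_mono (j := i2 + 1 + k0) (k := i - (i2 + 1 + k0)) (by omega) (by omega)
    rwa [h1] at this
  have hX := C.XX_card' (i := i2) (by omega) hci2
  rw [← hlam] at hX
  -- the clean levels below
  obtain ⟨m2, hm2⟩ : ∃ m2, i2 = m2 + k0 + 2 := ⟨i2 - k0 - 2, by omega⟩
  set S := {j ∈ Icc 1 m2 | ¬ Dirty q W y0 V j} with hS
  have hSc : m2 ≤ #S + Dn := by
    have h1 : #{j ∈ Icc 1 m2 | Dirty q W y0 V j} + #{j ∈ Icc 1 m2 | ¬ Dirty q W y0 V j} =
        #(Icc 1 m2) := card_filter_add_card_filter_not _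
    have h2 : #{j ∈ Icc 1 m2 | Dirty q W y0 V j} ≤ Dn := by
      rw [hDn]
      apply card_le_card
      intro j hj
      rw [mem_filter, mem_Icc] at hj
      rw [mem_filter, mem_range]
      exact ⟨by omega, hj.2⟩
    rw [Nat.card_Icc, ← hS] at h1
    omega
  have hSsum := C.sum_clean (i := i2) S (by
    intro j hj
    rw [hS, mem_filter, mem_Icc] at hj
    exact ⟨hj.1.1, by omega, hj.2⟩)
  have hIH : ∑ j ∈ S, j ≤ c0 * ∑ j ∈ S, #(Vl q y0 V j) := by
    rw [mul_sum]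
    apply sum_le_sum
    intro j hj
    rw [hS, mem_filter, mem_Icc] at hj
    exact IH j (by omega) (by omega)
  have hlarge := sum_large S (i / 4)
  have h5 : 3 * i ≤ 8 * (#S - (i / 4 + 1)) + 16 := by omega
  have h6 : 11 * i ≤ 32 * (#S - (i / 4 + 1)) := by omega
  have h7 : 15 * i ≤ 16 * (4 * (i / 4)) := by omega
  -- i^2 ≤ 11 * sum
  have h8 : i * i ≤ 13 * ((#S - (i / 4 + 1)) * (i / 4)) := by
    have h9 : (11 * i) * (15 * i) ≤ (32 * (#S - (i / 4 + 1))) * (16 * (4 * (i / 4))) :=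
      Nat.mul_le_mul h6 h7
    nlinarith
  set B := #(Vl q y0 V i) with hB
  set B2 := #(Vl q y0 V (i2 + 1 + k0)) with hB2
  have h10 : i * i ≤ 13 * (c0 * (120 * B ^ 2 * lam)) := by
    calc i * i ≤ 13 * ((#S - (i / 4 + 1)) * (i / 4)) := h8
      _ ≤ 13 * (∑ j ∈ S, j) := Nat.mul_le_mul_left _ hlarge
      _ ≤ 13 * (c0 * ∑ j ∈ S, #(Vl q y0 V j)) := Nat.mul_le_mul_left _ hIH
      _ ≤ 13 * (c0 * #(XX q k0 W y0 V i2)) :=
          Nat.mul_le_mul_left _ (Nat.mul_le_mul_left _ hSsum)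
      _ ≤ 13 * (c0 * (120 * B2 ^ 2 * lam)) :=
          Nat.mul_le_mul_left _ (Nat.mul_le_mul_left _ hX)
      _ ≤ 13 * (c0 * (120 * B ^ 2 * lam)) := by
          apply Nat.mul_le_mul_left
          apply Nat.mul_le_mul_left
          apply Nat.mul_le_mul_right
          apply Nat.mul_le_mul_left
          exact Nat.pow_le_pow_left hB1 2
  have h11 : i * i ≤ (c0 * B) * (c0 * B) := by
    have h12 : 13 * 120 * lam ≤ c0 := by omega
    calc i * i ≤ 13 * (c0 * (120 * B ^ 2 * lam)) := h10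
      _ = (13 * 120 * lam) * (c0 * B ^ 2) := by ring
      _ ≤ c0 * (c0 * B ^ 2) := Nat.mul_le_mul_right _ h12
      _ = _ := by ring
  exact Nat.mul_self_le_mul_self_iff.1 h11

end

end Ctx

end Run7.h662.DC
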