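import Pool.Agent.Run7.h662.DC.Fin2

set_option autoImplicit false

namespace Run7.h662.DC

open Finset Filter Topology

/-- the `k`-th base `b` digit of `x` after the point (`k ≥ 1`) -/
noncomputable def dig (x : ℝ) (b k : ℕ) : ℤ := ⌊x * (b : ℝ) ^ k⌋ % (b : ℤ)

lemma dig_eq (x : ℝ) (b k : ℕ) (hb : 2 ≤ b) :
    dig x b (k + 1) = ⌊x * (b : ℝ) ^ (k + 1)⌋ - b * ⌊x * (b : ℝ) ^ k⌋ := by
  have hb0 : (b : ℝ) ≠ 0 := by positivity
  have h1 : ⌊x * (b : ℝ) ^ k⌋ = ⌊x * (b : ℝ) ^ (k + 1)⌋ / (b : ℤ) := by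
    rw [← Int.floor_div_natCast]
    congr 1
    rw [pow_succ]
    field_simp
  rw [dig, h1, Int.emod_def]

lemma dig_nonneg (x : ℝ) (b k : ℕ) (hb : 2 ≤ b) : 0 ≤ dig x b k :=
  Int.emod_nonneg _ (by omega)

lemma dig_lt (x : ℝ) (b k : ℕ) (hb : 2 ≤ b) : dig x b k < b :=
  Int.emod_lt_of_pos _ (by omega)

lemma hasSum_dig (x : ℝ) (b : ℕ) (hb : 2 ≤ b) (j : ℕ) :
    HasSum (fun k => (dig x b (k + 1 + j) : ℝ) / b ^ k)
      (b * (x * (b : ℝ) ^ j - ⌊x * (b : ℝ) ^ j⌋)) := by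
  have hb0 : (b : ℝ) ≠ 0 := by positivity
  have hb1 : (1 : ℝ) < b := by exact_mod_cast (by omega : 1 < b)
  rw [hasSum_iff_tendsto_nat_of_nonneg]
  · have hpart : ∀ n : ℕ, ∑ k ∈ range n, (dig x b (k + 1 + j) : ℝ) / b ^ k =
        b * ((⌊x * (b : ℝ) ^ (n + j)⌋ : ℝ) / b ^ n - ⌊x * (b : ℝ) ^ j⌋) := by
      intro n
      induction n with
      | zero => simp
      | succ n ih =>
        rw [sum_range_succ, ih, show n + 1 + j = (n + j) + 1 by ring, dig_eq x b (n + j) hb]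
        push_cast
        rw [pow_succ]
        field_simp
        ring
    simp_rw [hpart]
    apply Tendsto.const_mul
    apply Tendsto.sub_const
    have h1 : Tendsto (fun n : ℕ => (x * (b : ℝ) ^ j) - 1 / (b : ℝ) ^ n) atTop
        (𝓝 (x * (b : ℝ) ^ j - 0)) := by
      apply Tendsto.const_sub
      have := tendsto_inv_atTop_zero.comp (tendsto_pow_atTop_atTop_of_one_lt hb1)
      simpa [Function.comp_def] using this
    rw [sub_zero] at h1
    refine tendsto_of_tendsto_of_tendsto_of_le_of_le h1 tendsto_const_nhds ?_ ?_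
    · intro n
      have hpos : (0 : ℝ) < (b : ℝ) ^ n := by positivity
      simp only
      rw [le_div_iff₀ hpos, sub_mul, div_mul_cancel₀ _ hpos.ne']
      have := (Int.sub_one_lt_floor (x * (b : ℝ) ^ (n + j))).le
      calc x * (b : ℝ) ^ j * (b : ℝ) ^ n - 1 = x * (b : ℝ) ^ (n + j) - 1 := by
            rw [pow_add]; ring
        _ ≤ _ := this
    · intro n
      have hpos : (0 : ℝ) < (b : ℝ) ^ n := by positivity
      simp only
      rw [div_le_iff₀ hpos]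
      calc ((⌊x * (b : ℝ) ^ (n + j)⌋ : ℤ) : ℝ) ≤ x * (b : ℝ) ^ (n + j) := Int.floor_le _
        _ = _ := by rw [pow_add]; ring
  · intro k
    have : (0 : ℝ) ≤ (dig x b (k + 1 + j) : ℝ) := by exact_mod_cast dig_nonneg x b _ hb
    positivity

/-- failures of a linear relation between consecutive digits of a quadratic irrational -/
theorem relations (b : ℕ) (hb : 2 ≤ b) (x : ℝ) (hirr : Irrational x) (A B C : ℤ)
    (hA : A ≠ 0) (hq : (A : ℝ) * x ^ 2 + B * x + C = 0) (m : ℕ) (q : ℕ → ℤ) (e : ℤ)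
    (hqb : ∑ j ∈ range (m + 1), q j * (b : ℤ) ^ j ≠ 0) :
    ∃ c : ℝ, 0 < c ∧ ∀ᶠ N : ℕ in atTop,
      c * (Real.log N) ^ 2 / Real.log (Real.log N) ≤
        #{k ∈ range N | ∑ j ∈ range (m + 1), q j * dig x b (k + 1 + j) ≠ e} := by
  have hb0 : (b : ℝ) ≠ 0 := by positivity
  have hb1 : (1 : ℝ) < b := by exact_mod_cast (by omega : 1 < b)
  set U : ℤ := ((b : ℤ) - 1) * b * ∑ j ∈ range (m + 1), q j * (b : ℤ) ^ j with hU
  set T : ℤ := ((b : ℤ) - 1) * b * (∑ j ∈ range (m + 1), q j * ⌊x * (b : ℝ) ^ j⌋) + e * b with hT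
  have hU0 : U ≠ 0 := by
    apply mul_ne_zero (mul_ne_zero _ _) hqb
    · omega
    · omega
  set r : ℕ → ℤ := fun k =>
    ((b : ℤ) - 1) * (∑ j ∈ range (m + 1), q j * dig x b (k + 1 + j) - e) with hr
  have hsum : HasSum (fun k => (r k : ℝ) / b ^ k) ((U : ℝ) * x - T) := by
    have h1 : HasSum (fun k => ∑ j ∈ range (m + 1), (q j : ℝ) *
        ((dig x b (k + 1 + j) : ℝ) / b ^ k)) (∑ j ∈ range (m + 1), (q j : ℝ) *
        (b * (x * (b : ℝ) ^ j - ⌊x * (b : ℝ) ^ j⌋))) :=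
      hasSum_sum fun j _ => (hasSum_dig x b hb j).mul_left _
    have h2 : HasSum (fun k : ℕ => (e : ℝ) * ((b : ℝ)⁻¹) ^ k) (e * (1 - (b : ℝ)⁻¹)⁻¹) :=
      (hasSum_geometric_of_lt_one (by positivity) (inv_lt_one_of_one_lt₀ hb1)).mul_left _
    have h3 := (h1.sub h2).mul_left ((b : ℝ) - 1)
    have hv : ((b : ℝ) - 1) * ((∑ j ∈ range (m + 1), (q j : ℝ) *
        (b * (x * (b : ℝ) ^ j - ⌊x * (b : ℝ) ^ j⌋))) - e * (1 - (b : ℝ)⁻¹)⁻¹) =
        (U : ℝ) * x - T := by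
      have h4 : (1 - (b : ℝ)⁻¹)⁻¹ = b / (b - 1) := by
        have : (b : ℝ) - 1 ≠ 0 := by linarith
        field_simp
      have h5 : (b : ℝ) - 1 ≠ 0 := by linarith
      rw [h4, hU, hT]
      push_cast
      rw [mul_sub]
      have h6 : ((b : ℝ) - 1) * (e * (b / (b - 1))) = e * b := by field_simp
      rw [h6]
      have h7 : ∑ j ∈ range (m + 1), (q j : ℝ) * (b * (x * (b : ℝ) ^ j - ⌊x * (b : ℝ) ^ j⌋)) =
          b * (∑ j ∈ range (m + 1), (q j : ℝ) * (b : ℝ) ^ j) * x -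
          b * ∑ j ∈ range (m + 1), (q j : ℝ) * ⌊x * (b : ℝ) ^ j⌋ := by
        rw [mul_sum, sum_mul, mul_sum, ← sum_sub_distrib]
        apply sum_congr rfl
        intro j _
        ring
      rw [h7]
      ring
    rw [hv] at h3
    have hfun : (fun k => (r k : ℝ) / b ^ k) = fun k => ((b : ℝ) - 1) *
        (∑ j ∈ range (m + 1), (q j : ℝ) * ((dig x b (k + 1 + j) : ℝ) / b ^ k) -
          e * ((b : ℝ)⁻¹) ^ k) := by
      funext k
      rw [hr]
      push_cast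
      rw [mul_div_assoc, sub_div, sum_div, inv_pow, ← div_eq_mul_inv]
      congr 2
      apply sum_congr rfl
      intro j _
      rw [mul_div_assoc]
    rw [hfun]
    exact h3
  have hirr' : Irrational ((U : ℝ) * x - T) := (hirr.intCast_mul hU0).sub_intCast T
  have hq' : (A : ℝ) * ((U : ℝ) * x - T) ^ 2 + ((2 * A * T + B * U : ℤ) : ℝ) * ((U : ℝ) * x - T) +
      ((A * T ^ 2 + B * U * T + C * U ^ 2 : ℤ) : ℝ) = 0 := by
    push_cast
    linear_combination (U : ℝ) ^ 2 * hq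
  have hbd : ∀ k, |r k| ≤ ((b * ((∑ j ∈ range (m + 1), (q j).natAbs) * b + e.natAbs) : ℕ) : ℤ) := by
    intro k
    have h1 : |∑ j ∈ range (m + 1), q j * dig x b (k + 1 + j)| ≤
        (∑ j ∈ range (m + 1), ((q j).natAbs : ℤ)) * b := by
      refine (abs_sum_le_sum_abs _ _).trans ?_
      rw [sum_mul]
      apply sum_le_sum
      intro j _
      rw [abs_mul, Int.natCast_natAbs]
      apply mul_le_mul_of_nonneg_left _ (abs_nonneg _)
      rw [abs_of_nonneg (dig_nonneg x b _ hb)]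
      exact (dig_lt x b _ hb).le
    rw [hr, abs_mul]
    push_cast
    have h2 : |(b : ℤ) - 1| ≤ b := by rw [abs_of_nonneg (by omega)]; omega
    apply mul_le_mul h2 _ (abs_nonneg _) (by omega)
    refine (abs_sub _ _).trans ?_
    simp only [Int.natCast_natAbs] at h1
    exact add_le_add h1 le_rfl
  obtain ⟨c, hc, h⟩ := sparse_quadratic b hb ((U : ℝ) * x - T) hirr' A _ _ hA hq' r _ hbd hsum
  refine ⟨c, hc, ?_⟩
  filter_upwards [h] with N hN
  refine hN.trans ?_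
  apply le_of_eq
  congr 2
  ext k
  rw [mem_filter, mem_filter]
  apply and_congr_right
  intro _
  rw [hr]
  simp only
  constructor
  · intro h1 h2
    exact h1 (by rw [h2]; ring)
  · intro h1 h2
    rcases mul_eq_zero.1 h2 with h3 | h3
    · omega
    · exact h1 (by linarith)

end Run7.h662.DC
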