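import Mathlib

/-!
Sparse expansions of quadratic irrationals.

Target: if `y` is a real quadratic irrational, `b ≥ 2`, `r k` a bounded sequence of integers with
`y = ∑ r k / b ^ k`, then at least `c (log n)^2 / log log n` of the `r k`, `k < n`, are nonzero.

This file: definitions and the statements of the independent pieces.
-/

set_option autoImplicit false

namespace Run7.h662.DC

open Finset

/-- partial sums -/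
def Fs {A : Type*} [AddCommMonoid A] (f : ℕ → A) (R : ℕ) : A := ∑ a ∈ range (R + 1), f a

/-- sum of `f a * f b` over all pairs with `a + b ≤ R` -/
def Ts {A : Type*} [NonUnitalNonAssocSemiring A] (f : ℕ → A) (R : ℕ) : A :=
  ∑ a ∈ range (R + 1), f a * Fs f (R - a)

/-- Piece ALG: if the truncated squares of a sparse sequence over `ZMod p` are almost always the
nonsquare `D`, then `F (R) = - F (R / p)` for almost all `R`.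
(Proof: `mu = ∑_{a<n} f a X^a`, `S = (mu^2 - D)/(1-X)` has at most `e` terms below `n`,
`mu^p = mu(X^p)`, `mu^p + mu = mu ((mu^2)^h - D^h)`, `h = (p-1)/2`, `D^h = -1`, is
`(1 - X) * S * mu * (sum of (mu^2)^i D^(h-1-i))`; divide by `1 - X` and count terms.) -/
def S_ALG : Prop := ∀ (p : ℕ) [Fact p.Prime], p ≠ 2 → ∀ (f : ℕ → ZMod p) (D : ZMod p),
  ¬ IsSquare D → ∀ n K e : ℕ,
  #{a ∈ range n | f a ≠ 0} ≤ K → #{R ∈ range n | Ts f R ≠ D} ≤ e →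
  #{R ∈ range n | Fs f R ≠ - Fs f (R / p)} ≤ e * (K + 1) ^ (2 * p)

/-- Piece E1: the exact relation. (Proof: put `X = ∑_{i ≤ R'} r i / b^i`, `|X - y| ≤ C b^{-R'} `,
`|X^2 - ∑_{i+j ≤ R'} r i r j / b^(i+j)| ≤ C^2 (R'+1) b^{-R'}`; so with `R' = R + ρ`, if no sum
`i + j` with `r i r j ≠ 0` lies in `(R, R + ρ]`, the integer
`∑_{i+j ≤ R} r i r j b^(R-i-j) - Δ b^R` has absolute value `< 1`. The bad `R` lie in the
`[i+j-ρ, i+j)` with `i, j < n + ρ`, `r i, r j ≠ 0`.) -/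
def S_E1 : Prop := ∀ (b : ℕ), 2 ≤ b → ∀ (r : ℕ → ℤ) (C : ℕ), (∀ k, |r k| ≤ C) →
  ∀ (y : ℝ) (Δ : ℤ), HasSum (fun k => (r k : ℝ) / b ^ k) y → y ^ 2 = Δ →
  ∃ C' : ℕ, ∀ n ρ : ℕ, C' * (n + ρ + 1) < b ^ ρ →
  #{R ∈ range n | ∑ i ∈ range (R + 1), ∑ j ∈ range (R + 1 - i),
      r i * r j * (b : ℤ) ^ (R - i - j) ≠ Δ * b ^ R} ≤ ρ * #{i ∈ range (n + ρ) | r i ≠ 0} ^ 2

/-- Output of the cluster analysis: visible clusters `V`, with extended intervals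
`[lo c, hi c]`, scaling by `q ^ k` for `k ≥ k0`, fuzziness `W`, valid below `n`. -/
def VSys (q k0 n W : ℕ) (V : Finset ℕ) (lo hi : ℕ → ℕ) : Prop :=
  (∀ c ∈ V, c < n ∧ lo c ≤ c ∧ c ≤ hi c ∧ hi c ≤ lo c + W) ∧
  (∀ c ∈ V, ∀ c' ∈ V, c < c' → hi c < lo c') ∧
  (∀ c ∈ V, W ≤ c → ∀ k, k0 ≤ k → q ^ k * hi c ≤ n →
    ∃ c' ∈ V, q ^ k * lo c ≤ c' ∧ c' ≤ q ^ k * hi c) ∧
  (∀ s ∈ V, ∀ x ∈ V, s ≠ x → W ≤ s + x → s + x + W ≤ n →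
    ∃ α ∈ V, ∃ β ∈ V, (α, β) ≠ (s, x) ∧ (α, β) ≠ (x, s) ∧
      α + β ≤ s + x + W ∧ s + x ≤ α + β + W) ∧
  (∀ Y, W < Y → 3 * Y ≤ n → ∃ c ∈ V, Y < c ∧ c < 3 * Y)

/-- Piece CLU: cluster analysis.
`J = {a < n | f a ≠ 0}`, `g = 2 e1 + 2`, `ω = 4 g K`, `Rep = {c ∈ J | no jump in [c - 4g, c)}`,
`rep a = max {c ∈ Rep | c ≤ a}` (`a - rep a ≤ ω`), `w c = ∑_{rep a = c} f a`,
`V = {c ∈ Rep | w c ≠ 0}`, `lo c = c - g`, `hi c = (last jump of the cluster of c) + g`. -/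
def S_CLU : Prop := ∀ (p : ℕ) [Fact p.Prime], p ≠ 2 → ∀ (f : ℕ → ZMod p) (D : ZMod p),
  ¬ IsSquare D → ∀ n K e e1 : ℕ, 1 ≤ K →
  #{a ∈ range n | f a ≠ 0} ≤ K → #{R ∈ range n | Ts f R ≠ D} ≤ e →
  #{R ∈ range n | Fs f R ≠ - Fs f (R / p)} ≤ e1 → ∀ k0 : ℕ, 8 * K ^ 2 < p ^ k0 →
  ∃ (V : Finset ℕ) (lo hi : ℕ → ℕ), #V ≤ K ∧
    VSys p k0 n (100 * (K + e + e1 + 1) ^ 4) V lo hi

/-- Piece CORE: counting. -/
def S_CORE : Prop := ∀ (q k0 n W : ℕ) (V : Finset ℕ) (lo hi : ℕ → ℕ), 3 ≤ q → 1 ≤ k0 → 1 ≤ W →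
  VSys q k0 n W V lo hi → 100 * W < q ^ k0 →
  ∀ J : ℕ, q ^ J * (1000 * W * (#V + 1)) ≤ n → J ^ 2 ≤ 10000 * (k0 + Nat.log 2 (#V) + 1) * #V

end Run7.h662.DC
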