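import Pool.Agent.Run7.h973.DC.ALG
import Pool.Agent.Run7.h973.DC.E1
import Pool.Agent.Run7.h781.DC.CLU
import Pool.Agent.Run7.h662.DC.Core

set_option autoImplicit false

namespace Run7.h662.DC

open Finset Filter Topology

lemma pow_le_two_pow (E : ℕ) : ∃ L0 : ℕ, ∀ L ≥ L0, L ^ E ≤ 2 ^ (L / 4) := by
  have h1 := tendsto_pow_const_div_const_pow_of_one_lt E (r := (2 : ℝ)) (by norm_num)
  have h2 : ∀ᶠ m : ℕ in atTop, (m : ℝ) ^ E / 2 ^ m < (1 / 8) ^ E :=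
    (tendsto_order.1 h1).2 _ (by positivity)
  obtain ⟨m0, hm0⟩ := eventually_atTop.1 h2
  refine ⟨4 * (m0 + 1), fun L hL => ?_⟩
  have hm : m0 + 1 ≤ L / 4 := by omega
  have h3 := hm0 (L / 4) (by omega)
  have h4 : L ≤ 8 * (L / 4) := by omega
  rw [div_lt_iff₀ (by positivity)] at h3
  have h5 : ((L : ℝ)) ^ E ≤ 2 ^ (L / 4) := by
    calc ((L : ℝ)) ^ E ≤ ((8 : ℝ) * ((L / 4 : ℕ) : ℝ)) ^ E := by
          apply pow_le_pow_left₀ (by positivity)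
          exact_mod_cast h4
      _ = 8 ^ E * (((L / 4 : ℕ) : ℝ)) ^ E := by rw [mul_pow]
      _ ≤ 8 ^ E * ((1 / 8) ^ E * 2 ^ (L / 4)) := by
          apply mul_le_mul_of_nonneg_left h3.le (by positivity)
      _ = 2 ^ (L / 4) := by
          rw [← mul_assoc, ← mul_pow]
          norm_num
  exact_mod_cast h5

/-- reduction of the exact integer relation modulo `p` -/
lemma Ts_of_int (p : ℕ) [Fact p.Prime] (b : ℕ) (hpb : ¬ p ∣ b) (r : ℕ → ℤ) (Δ : ℤ) (R : ℕ)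
    (h : ∑ i ∈ range (R + 1), ∑ j ∈ range (R + 1 - i),
      r i * r j * (b : ℤ) ^ (R - i - j) = Δ * b ^ R) :
    Ts (fun a => (r a : ZMod p) * ((b : ZMod p)⁻¹) ^ a) R = (Δ : ZMod p) := by
  have hb : (b : ZMod p) ≠ 0 := by
    intro h0
    exact hpb ((ZMod.natCast_eq_zero_iff b p).1 h0)
  have h1 := congrArg (fun z : ℤ => (z : ZMod p)) h
  simp only [Int.cast_sum, Int.cast_mul, Int.cast_pow, Int.cast_natCast] at h1
  have hbR : (b : ZMod p) ^ R ≠ 0 := pow_ne_zero _ hb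
  apply mul_right_cancel₀ hbR
  rw [← h1, Ts, sum_mul]
  apply sum_congr rfl
  intro i hi
  rw [mem_range] at hi
  rw [Fs, mul_sum, sum_mul, show R - i + 1 = R + 1 - i by omega]
  apply sum_congr rfl
  intro j hj
  rw [mem_range] at hj
  have h2 : (b : ZMod p) ^ R = (b : ZMod p) ^ i * (b : ZMod p) ^ j * (b : ZMod p) ^ (R - i - j) := by
    rw [← pow_add, ← pow_add]; congr 1; omega
  rw [h2]
  have h3 : ((b : ZMod p)⁻¹) ^ i * (b : ZMod p) ^ i = 1 := by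
    rw [← mul_pow, inv_mul_cancel₀ hb, one_pow]
  have h4 : ((b : ZMod p)⁻¹) ^ j * (b : ZMod p) ^ j = 1 := by
    rw [← mul_pow, inv_mul_cancel₀ hb, one_pow]
  calc (r i : ZMod p) * ((b : ZMod p)⁻¹) ^ i * ((r j : ZMod p) * ((b : ZMod p)⁻¹) ^ j) *
        ((b : ZMod p) ^ i * (b : ZMod p) ^ j * (b : ZMod p) ^ (R - i - j))
      = (r i : ZMod p) * (r j : ZMod p) * (b : ZMod p) ^ (R - i - j) *
        (((b : ZMod p)⁻¹) ^ i * (b : ZMod p) ^ i) * (((b : ZMod p)⁻¹) ^ j * (b : ZMod p) ^ j) := by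
        ring
    _ = _ := by rw [h3, h4]; ring

/-- all pieces together, for one `N` -/
theorem assemble (b : ℕ) (r : ℕ → ℤ) (Δ : ℤ) (p : ℕ) [Fact p.Prime]
    (hp2 : p ≠ 2) (hpb : ¬ p ∣ b) (hΔ : ¬ IsSquare (Δ : ZMod p)) (n ρ K e : ℕ) (hK : 1 ≤ K)
    (hcard : #{i ∈ range (n + ρ) | r i ≠ 0} ≤ K)
    (hE : #{R ∈ range n | ∑ i ∈ range (R + 1), ∑ j ∈ range (R + 1 - i),
      r i * r j * (b : ℤ) ^ (R - i - j) ≠ Δ * b ^ R} ≤ e)
    (k0 : ℕ) (hk0 : 10000 * (K + e + e * (K + 1) ^ (2 * p) + 1) ^ 4 < p ^ k0)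
    (J : ℕ) (hJ : p ^ J * (100000 * (K + e + e * (K + 1) ^ (2 * p) + 1) ^ 4 * (K + 1)) ≤ n) :
    J ^ 2 ≤ 10000 * (k0 + Nat.log 2 K + 1) * K := by
  classical
  have hp : p.Prime := Fact.out
  have hp3 : 3 ≤ p := by
    have := hp.two_le
    omega
  set f : ℕ → ZMod p := fun a => (r a : ZMod p) * ((b : ZMod p)⁻¹) ^ a with hf
  have hf0 : #{a ∈ range n | f a ≠ 0} ≤ K := by
    refine le_trans (card_le_card ?_) hcard
    intro a ha
    rw [mem_filter, mem_range] at ha ⊢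
    refine ⟨by omega, fun h0 => ha.2 ?_⟩
    simp [hf, h0]
  have hT : #{R ∈ range n | Ts f R ≠ (Δ : ZMod p)} ≤ e := by
    refine le_trans (card_le_card ?_) hE
    intro R hR
    rw [mem_filter] at hR ⊢
    exact ⟨hR.1, fun h0 => hR.2 (Ts_of_int p b hpb r Δ R h0)⟩
  have hF := Run7.h973.DC.t_ALG p hp2 f (Δ : ZMod p) hΔ n K e hf0 hT
  set e1 := e * (K + 1) ^ (2 * p) with he1
  set B := K + e + e1 + 1 with hB
  have hKB : K ≤ B := by omega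
  have hB1 : 1 ≤ B := by omega
  have h8 : 8 * K ^ 2 < p ^ k0 := by
    refine lt_of_le_of_lt ?_ hk0
    have h1 : K ^ 2 ≤ B ^ 4 := by
      calc K ^ 2 ≤ B ^ 2 := Nat.pow_le_pow_left hKB 2
        _ ≤ B ^ 4 := Nat.pow_le_pow_right hB1 (by norm_num)
    omega
  obtain ⟨V, lo, hi, hVK, hV⟩ := Run7.h781.DC.clu p hp2 f (Δ : ZMod p) hΔ n K e e1 hK hf0 hT hF k0 h8
  rw [← hB] at hV
  have hk01 : 1 ≤ k0 := by
    rcases Nat.eq_zero_or_pos k0 with h0 | h0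
    · rw [h0, pow_zero] at h8
      have : 1 ≤ K ^ 2 := Nat.one_le_pow _ _ hK
      omega
    · exact h0
  have hW1 : 1 ≤ 100 * B ^ 4 := by
    have : 1 ≤ B ^ 4 := Nat.one_le_pow _ _ hB1
    omega
  have hJ' : p ^ J * (1000 * (100 * B ^ 4) * (#V + 1)) ≤ n := by
    refine le_trans ?_ hJ
    apply Nat.mul_le_mul_left
    calc 1000 * (100 * B ^ 4) * (#V + 1) = 100000 * B ^ 4 * (#V + 1) := by ring
      _ ≤ _ := Nat.mul_le_mul_left _ (by omega)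
  have hfin := t_CORE p k0 n (100 * B ^ 4) V lo hi hp3 hk01 hW1 hV
    (by calc 100 * (100 * B ^ 4) = 10000 * B ^ 4 := by ring
          _ < _ := hk0) J hJ'
  refine hfin.trans ?_
  apply Nat.mul_le_mul _ hVK
  apply Nat.mul_le_mul_left
  have := Nat.log_mono_right (b := 2) hVK
  omega

/-- natural number form of the theorem -/
theorem nat_form (b : ℕ) (hb : 2 ≤ b) (r : ℕ → ℤ) (M : ℕ) (hr : ∀ k, |r k| ≤ M) (y : ℝ) (Δ : ℤ)
    (hy : HasSum (fun k => (r k : ℝ) / b ^ k) y) (hy2 : y ^ 2 = Δ) (p : ℕ) [Fact p.Prime]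
    (hp2 : p ≠ 2) (hpb : ¬ p ∣ b) (hΔ : ¬ IsSquare (Δ : ZMod p)) :
    ∃ C L0 : ℕ, ∀ N L : ℕ, L0 ≤ L → 2 ^ L ≤ N → N < 2 ^ (L + 1) →
      L ^ 2 ≤ C * (Nat.log 2 L + 1) * (#{k ∈ range N | r k ≠ 0} + 1) := by
  obtain ⟨C', hC'⟩ := Run7.h973.DC.t_E1 b hb r M hr y Δ hy hy2
  have hp : p.Prime := Fact.out
  have hp3 : 3 ≤ p := by
    have := hp.two_le
    omega
  obtain ⟨E, hE⟩ : ∃ E, E = 24 * p + 100 := ⟨_, rfl⟩
  obtain ⟨L1, hL1⟩ := pow_le_two_pow E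
  refine ⟨64 * p ^ 2 * (10000 * (E + 4)) + 1, L1 + C' + 8 * p + 1000, ?_⟩
  intro N L hL hN1 hN2
  set K1 := #{k ∈ range N | r k ≠ 0} with hK1
  by_cases hbig : L ^ 2 ≤ K1 + 1
  · calc L ^ 2 ≤ 1 * (K1 + 1) := by omega
      _ ≤ _ := by
        apply Nat.mul_le_mul_right
        nlinarith [Nat.zero_le (64 * p ^ 2 * (10000 * (E + 4))), Nat.zero_le (Nat.log 2 L)]
  push Not at hbig
  have hLp : L ^ E ≤ 2 ^ (L / 4) := hL1 L (by omega)
  -- parameters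
  obtain ⟨ρ, hρ⟩ : ∃ ρ, ρ = 2 * L + C' := ⟨_, rfl⟩
  have h4 : 2 ^ (L / 4) ≤ 2 ^ L := Nat.pow_le_pow_right (by norm_num) (by omega)
  have hLL : 16 * L ≤ L ^ E := by
    calc 16 * L ≤ L * L := Nat.mul_le_mul_right _ (by omega)
      _ = L ^ 2 := by ring
      _ ≤ L ^ E := Nat.pow_le_pow_right (by omega) (by omega)
  have hρN : ρ ≤ N := by omega
  obtain ⟨n, hn⟩ : ∃ n, N = n + ρ := ⟨N - ρ, by omega⟩
  have hcond : C' * (n + ρ + 1) < b ^ ρ := by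
    have h1 : C' < 2 ^ C' := Nat.lt_two_pow_self
    have h2 : n + ρ + 1 ≤ 2 ^ (L + 1) := by omega
    have h3 : 2 ^ (L + 1) ≤ 2 ^ (2 * L) := Nat.pow_le_pow_right (by norm_num) (by omega)
    have h5 : 2 ^ ρ ≤ b ^ ρ := Nat.pow_le_pow_left hb ρ
    have h6 : 2 ^ ρ = 2 ^ (2 * L) * 2 ^ C' := by rw [hρ, pow_add]
    have h7 : 0 < 2 ^ (2 * L) := by positivity
    calc C' * (n + ρ + 1) ≤ C' * 2 ^ (2 * L) := Nat.mul_le_mul_left _ (h2.trans h3)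
      _ < 2 ^ C' * 2 ^ (2 * L) := Nat.mul_lt_mul_of_pos_right h1 h7
      _ = 2 ^ ρ := by rw [h6]; ring
      _ ≤ _ := h5
  have hE1 := hC' n ρ hcond
  rw [← hn, ← hK1] at hE1
  -- the count
  obtain ⟨K, hK⟩ : ∃ K, K = K1 + 1 := ⟨_, rfl⟩
  have hKL : K < L ^ 2 := by omega
  have hL100 : 1000 ≤ L := by omega
  obtain ⟨e, he⟩ : ∃ e, e = L ^ 6 := ⟨_, rfl⟩
  have hLpos : 1 ≤ L := by omega
  have hE2 : ρ * K1 ^ 2 ≤ e := by
    have h1 : ρ ≤ 3 * L := by omega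
    have h2 : K1 ^ 2 ≤ (L ^ 2) ^ 2 := Nat.pow_le_pow_left (by omega) 2
    calc ρ * K1 ^ 2 ≤ (3 * L) * (L ^ 2) ^ 2 := Nat.mul_le_mul h1 h2
      _ = 3 * L ^ 5 := by ring
      _ ≤ L * L ^ 5 := Nat.mul_le_mul_right _ (by omega)
      _ = e := by rw [he]; ring
  have hB : K + e + e * (K + 1) ^ (2 * p) + 1 ≤ L ^ (6 * p + 8) := by
    have h1 : K + 1 ≤ L ^ 3 := by
      calc K + 1 ≤ 1 * L ^ 2 := by omega
        _ ≤ L * L ^ 2 := Nat.mul_le_mul_right _ hLpos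
        _ = L ^ 3 := by ring
    have h2 : e * (K + 1) ^ (2 * p) ≤ L ^ (6 * p + 6) := by
      calc e * (K + 1) ^ (2 * p) ≤ L ^ 6 * (L ^ 3) ^ (2 * p) := by
            rw [he]; exact Nat.mul_le_mul_left _ (Nat.pow_le_pow_left h1 _)
        _ = L ^ (6 * p + 6) := by rw [← pow_mul, ← pow_add]; congr 1; ring
    have h3 : e ≤ L ^ (6 * p + 6) := by
      rw [he]; exact Nat.pow_le_pow_right hLpos (by omega)
    have h4 : K + 1 ≤ L ^ (6 * p + 6) := h1.trans (Nat.pow_le_pow_right hLpos (by omega))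
    calc K + e + e * (K + 1) ^ (2 * p) + 1 ≤ 3 * L ^ (6 * p + 6) := by omega
      _ ≤ (L * L) * L ^ (6 * p + 6) := Nat.mul_le_mul_right _ (by nlinarith)
      _ = L ^ (6 * p + 8) := by ring
  have hB4 : (K + e + e * (K + 1) ^ (2 * p) + 1) ^ 4 ≤ L ^ (24 * p + 32) := by
    calc _ ≤ (L ^ (6 * p + 8)) ^ 4 := Nat.pow_le_pow_left hB 4
      _ = L ^ (24 * p + 32) := by rw [← pow_mul]; congr 1; ring
  -- k0
  obtain ⟨k0, hk0⟩ : ∃ k0, k0 = E * (Nat.log 2 L + 1) := ⟨_, rfl⟩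
  have hLlog : L < 2 ^ (Nat.log 2 L + 1) := Nat.lt_pow_succ_log_self (by norm_num) L
  have hE0 : E ≠ 0 := by omega
  have hk0' : 10000 * (K + e + e * (K + 1) ^ (2 * p) + 1) ^ 4 < p ^ k0 := by
    calc 10000 * (K + e + e * (K + 1) ^ (2 * p) + 1) ^ 4 ≤ (L * L) * L ^ (24 * p + 32) := by
          apply Nat.mul_le_mul _ hB4
          nlinarith
      _ = L ^ (24 * p + 34) := by ring
      _ ≤ L ^ E := Nat.pow_le_pow_right hLpos (by omega)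
      _ < (2 ^ (Nat.log 2 L + 1)) ^ E := Nat.pow_lt_pow_left hLlog hE0
      _ = 2 ^ k0 := by rw [← pow_mul, hk0]; congr 1; ring
      _ ≤ p ^ k0 := Nat.pow_le_pow_left (by omega) _
  -- J
  obtain ⟨J, hJ⟩ : ∃ J, J = L / (4 * p) := ⟨_, rfl⟩
  have hJ4 : J * p ≤ L / 4 := by
    rw [hJ, Nat.le_div_iff_mul_le (by norm_num)]
    calc L / (4 * p) * p * 4 = L / (4 * p) * (4 * p) := by ring
      _ ≤ L := Nat.div_mul_le_self _ _
  have hpJ : p ^ J ≤ 2 ^ (L / 4) := by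
    calc p ^ J ≤ (2 ^ p) ^ J := Nat.pow_le_pow_left Nat.lt_two_pow_self.le J
      _ = 2 ^ (J * p) := by rw [← pow_mul]; congr 1; ring
      _ ≤ _ := Nat.pow_le_pow_right (by norm_num) hJ4
  have hJn : p ^ J * (100000 * (K + e + e * (K + 1) ^ (2 * p) + 1) ^ 4 * (K + 1)) ≤ n := by
    have h1 : 100000 * (K + e + e * (K + 1) ^ (2 * p) + 1) ^ 4 * (K + 1) ≤ 2 ^ (L / 4) := by
      calc 100000 * (K + e + e * (K + 1) ^ (2 * p) + 1) ^ 4 * (K + 1)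
          ≤ (L * L) * L ^ (24 * p + 32) * (L ^ 2) := by
            apply Nat.mul_le_mul _ (by omega)
            apply Nat.mul_le_mul _ hB4
            nlinarith
        _ = L ^ (24 * p + 36) := by ring
        _ ≤ L ^ E := Nat.pow_le_pow_right hLpos (by omega)
        _ ≤ _ := hLp
    have h2 : 2 ^ (L / 4) * 2 ^ (L / 4) * 2 ^ (L / 4) ≤ 2 ^ L := by
      rw [← pow_add, ← pow_add]
      exact Nat.pow_le_pow_right (by norm_num) (by omega)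
    have h3 : 16 * L ≤ 2 ^ (L / 4) := hLL.trans hLp
    have h5 : 2 * (2 ^ (L / 4) * 2 ^ (L / 4)) ≤ 2 ^ (L / 4) * 2 ^ (L / 4) * 2 ^ (L / 4) := by
      rw [mul_comm 2]
      exact Nat.mul_le_mul_left _ (by omega)
    have h6 : 2 ^ (L / 4) * 1 ≤ 2 ^ (L / 4) * 2 ^ (L / 4) := Nat.mul_le_mul_left _ (by omega)
    calc p ^ J * (100000 * (K + e + e * (K + 1) ^ (2 * p) + 1) ^ 4 * (K + 1))
        ≤ 2 ^ (L / 4) * 2 ^ (L / 4) := Nat.mul_le_mul hpJ h1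
      _ ≤ n := by omega
  have hcard : #{i ∈ range (n + ρ) | r i ≠ 0} ≤ K := by
    rw [← hn]; omega
  have hmain := assemble b r Δ p hp2 hpb hΔ n ρ K e (by omega) hcard (hE1.trans hE2) k0 hk0' J hJn
  -- conclusion
  have hJ1 : 1 ≤ J := by
    rw [hJ]
    exact (Nat.one_le_div_iff (by omega)).2 (by omega)
  have hLJ : L ≤ 8 * p * J := by
    have h1 : L < 4 * p * (J + 1) := by
      rw [hJ, mul_comm]
      exact Nat.lt_mul_of_div_lt (by omega) (by omega)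
    have h2 : p * 1 ≤ p * J := Nat.mul_le_mul_left _ hJ1
    nlinarith
  have hlogK : Nat.log 2 K ≤ 2 * (Nat.log 2 L + 1) := by
    have h1 : K < 2 ^ (2 * (Nat.log 2 L + 1)) := by
      calc K < L ^ 2 := hKL
        _ ≤ (2 ^ (Nat.log 2 L + 1)) ^ 2 := Nat.pow_le_pow_left hLlog.le 2
        _ = _ := by rw [← pow_mul]; congr 1; ring
    exact (Nat.log_lt_of_lt_pow (by omega) h1).le
  have hsum : k0 + Nat.log 2 K + 1 ≤ (E + 4) * (Nat.log 2 L + 1) := by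
    rw [hk0]
    nlinarith [Nat.zero_le (Nat.log 2 L)]
  calc L ^ 2 ≤ (8 * p * J) ^ 2 := Nat.pow_le_pow_left hLJ 2
    _ = 64 * p ^ 2 * J ^ 2 := by ring
    _ ≤ 64 * p ^ 2 * (10000 * (k0 + Nat.log 2 K + 1) * K) := Nat.mul_le_mul_left _ hmain
    _ ≤ 64 * p ^ 2 * (10000 * ((E + 4) * (Nat.log 2 L + 1)) * K) := by
        apply Nat.mul_le_mul_left
        apply Nat.mul_le_mul_right
        exact Nat.mul_le_mul_left _ hsum
    _ = (64 * p ^ 2 * (10000 * (E + 4))) * (Nat.log 2 L + 1) * K := by ring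
    _ ≤ (64 * p ^ 2 * (10000 * (E + 4)) + 1) * (Nat.log 2 L + 1) * K := by
        apply Nat.mul_le_mul_right
        apply Nat.mul_le_mul_right
        omega
    _ = _ := by rw [hK]

end Run7.h662.DC
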