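import Pool.Agent.Run7.h662.DC.Fin1
import Pool.Agent.H374R2.V.ZD

set_option autoImplicit false

namespace Run7.h662.DC

open Finset Filter Topology

/-- an odd prime not dividing `b` modulo which a given nonsquare integer is a nonsquare -/
lemma exists_prime (D : ℤ) (hD : ¬ IsSquare D) (b : ℕ) (hb : b ≠ 0) :
    ∃ p : ℕ, p.Prime ∧ p ≠ 2 ∧ ¬ p ∣ b ∧ ¬ IsSquare ((D : ℤ) : ZMod p) := by
  obtain ⟨M, c, hM, hc, h⟩ := Pool.Agent.H374R2.V.ZD.nonres_class D hD
  have : NeZero M := ⟨by omega⟩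
  have hunit : IsUnit ((c : ℕ) : ZMod M) := (ZMod.isUnit_iff_coprime c M).2 hc
  obtain ⟨p, hp1, hp, hp2⟩ := Nat.forall_exists_prime_gt_and_eq_mod hunit (b + 2)
  refine ⟨p, hp, by omega, ?_, h p hp ?_⟩
  · intro hd
    have := Nat.le_of_dvd (Nat.pos_of_ne_zero hb) hd
    omega
  · exact (ZMod.natCast_eq_natCast_iff p c M).1 hp2

/-- conversion to real logarithms -/
lemma real_form (C L0 : ℕ) (K : ℕ → ℕ)
    (h : ∀ N L : ℕ, L0 ≤ L → 2 ^ L ≤ N → N < 2 ^ (L + 1) →
      L ^ 2 ≤ C * (Nat.log 2 L + 1) * (K N + 2)) :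
    ∃ c : ℝ, 0 < c ∧ ∀ᶠ N : ℕ in atTop,
      c * (Real.log N) ^ 2 / Real.log (Real.log N) ≤ K N := by
  have hlog : Tendsto (fun N : ℕ => Real.log N) atTop atTop :=
    Real.tendsto_log_atTop.comp tendsto_natCast_atTop_atTop
  have hloglog : Tendsto (fun N : ℕ => Real.log (Real.log N)) atTop atTop :=
    Real.tendsto_log_atTop.comp hlog
  refine ⟨1 / (15 * (C + 1)), by positivity, ?_⟩
  filter_upwards [hlog.eventually_ge_atTop (15 * (C + 1) + L0 + 3), hloglog.eventually_ge_atTop 2,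
    eventually_ge_atTop 2] with N h1 h2 h3
  set x := Real.log N with hx
  set z := Real.log x with hz
  set L := Nat.log 2 N with hL
  have hC0 : (0 : ℝ) ≤ C := Nat.cast_nonneg C
  have hL00 : (0 : ℝ) ≤ L0 := Nat.cast_nonneg L0
  have hx3 : 3 ≤ x := by linarith
  have hxpos : 0 < x := by linarith
  have hN1 : 2 ^ L ≤ N := Nat.pow_log_le_self 2 (by omega)
  have hN2 : N < 2 ^ (L + 1) := Nat.lt_pow_succ_log_self (by norm_num) N
  have hNpos : (0 : ℝ) < N := by exact_mod_cast (by omega : 0 < N)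
  have hln2 := Real.log_two_lt_d9
  have hln2' := Real.log_two_gt_d9
  have hLx : (L : ℝ) * Real.log 2 ≤ x := by
    rw [hx, ← Real.log_pow]
    apply Real.log_le_log (by positivity)
    exact_mod_cast hN1
  have hxL : x ≤ (L + 1) * Real.log 2 := by
    have : (((L + 1 : ℕ) : ℝ)) * Real.log 2 = Real.log (2 ^ (L + 1)) := by rw [Real.log_pow]
    have h4 : x ≤ Real.log (2 ^ (L + 1)) := by
      apply Real.log_le_log hNpos
      exact_mod_cast hN2.le
    rw [← this] at h4
    push_cast at h4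
    exact h4
  have hxL' : x ≤ L := by nlinarith
  have hLx' : (L : ℝ) ≤ 2 * x := by nlinarith
  have hLL0 : L0 ≤ L := by
    have : (L0 : ℝ) ≤ L := by linarith
    exact_mod_cast this
  have hmain := h N L hLL0 hN1 hN2
  have hLpos : 1 ≤ L := by
    have : (1 : ℝ) ≤ L := by linarith
    exact_mod_cast this
  -- the logarithm of L
  have hlogL : ((Nat.log 2 L : ℕ) : ℝ) + 1 ≤ 5 * z := by
    have h5 : 2 ^ (Nat.log 2 L) ≤ L := Nat.pow_log_le_self 2 (by omega)
    have h6 : ((Nat.log 2 L : ℕ) : ℝ) * Real.log 2 ≤ Real.log L := by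
      rw [← Real.log_pow]
      apply Real.log_le_log (by positivity)
      exact_mod_cast h5
    have h7 : Real.log L ≤ Real.log 2 + z := by
      rw [hz, ← Real.log_mul (by norm_num) (by positivity)]
      apply Real.log_le_log (by exact_mod_cast hLpos) hLx'
    have h8 : (0 : ℝ) ≤ ((Nat.log 2 L : ℕ) : ℝ) := Nat.cast_nonneg _
    nlinarith
  have hmainR : (L : ℝ) ^ 2 ≤ C * ((Nat.log 2 L : ℕ) + 1) * ((K N : ℝ) + 2) := by
    exact_mod_cast hmain
  have hK0 : (0 : ℝ) ≤ K N := Nat.cast_nonneg _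
  have h9 : x ^ 2 ≤ (C + 1) * (5 * z) * ((K N : ℝ) + 2) := by
    calc x ^ 2 ≤ (L : ℝ) ^ 2 := by gcongr
      _ ≤ C * ((Nat.log 2 L : ℕ) + 1) * ((K N : ℝ) + 2) := hmainR
      _ ≤ (C + 1) * (5 * z) * ((K N : ℝ) + 2) := by
          gcongr
          linarith
  have hzpos : 0 < z := by linarith
  have hzx : z ≤ x := by
    rw [hz]
    exact (Real.log_le_sub_one_of_pos hxpos).trans (by linarith)
  -- K N ≥ 1
  have hK1 : (1 : ℝ) ≤ K N := by
    by_contra hcon
    push Not at hcon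
    have hK00 : K N = 0 := by
      have : K N < 1 := by exact_mod_cast hcon
      omega
    rw [hK00] at h9
    have h10 : x ^ 2 ≤ 10 * (C + 1) * x := by
      calc x ^ 2 ≤ (C + 1) * (5 * z) * (((0 : ℕ) : ℝ) + 2) := h9
        _ = 10 * (C + 1) * z := by push_cast; ring
        _ ≤ _ := by gcongr
    nlinarith
  rw [div_le_iff₀ hzpos]
  have h11 : x ^ 2 ≤ 15 * (C + 1) * (K N * z) := by
    calc x ^ 2 ≤ (C + 1) * (5 * z) * ((K N : ℝ) + 2) := h9
      _ ≤ (C + 1) * (5 * z) * (3 * K N) := by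
          gcongr
          linarith
      _ = _ := by ring
  rw [one_div, inv_mul_le_iff₀ (by positivity)]
  exact h11

/-- **Main theorem.** Bounded integer expansions of quadratic irrationals are not too sparse. -/
theorem sparse_quadratic (b : ℕ) (hb : 2 ≤ b) (y : ℝ) (hirr : Irrational y) (A B C : ℤ)
    (hA : A ≠ 0) (hq : (A : ℝ) * y ^ 2 + B * y + C = 0) (r : ℕ → ℤ) (M : ℕ)
    (hr : ∀ k, |r k| ≤ M) (hy : HasSum (fun k => (r k : ℝ) / b ^ k) y) :
    ∃ c : ℝ, 0 < c ∧ ∀ᶠ N : ℕ in atTop,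
      c * (Real.log N) ^ 2 / Real.log (Real.log N) ≤ #{k ∈ range N | r k ≠ 0} := by
  classical
  set Δ : ℤ := B ^ 2 - 4 * A * C with hΔ
  set y' : ℝ := 2 * A * y + B with hy'
  set r' : ℕ → ℤ := fun k => 2 * A * r k + (if k = 0 then B else 0) with hr'
  have hy2 : y' ^ 2 = Δ := by
    rw [hy', hΔ]
    push_cast
    linear_combination (4 * A : ℝ) * hq
  have hsum : HasSum (fun k => (r' k : ℝ) / b ^ k) y' := by
    have h1 : HasSum (fun k => (2 * A : ℝ) * ((r k : ℝ) / b ^ k)) (2 * A * y) := hy.mul_left _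
    have h2 : HasSum (fun k : ℕ => if k = 0 then (B : ℝ) else 0) B := hasSum_ite_eq 0 (B : ℝ)
    have h3 := h1.add h2
    have h4 : (fun k => (r' k : ℝ) / b ^ k) =
        fun k => (2 * A : ℝ) * ((r k : ℝ) / b ^ k) + (if k = 0 then (B : ℝ) else 0) := by
      funext k
      by_cases h0 : k = 0
      · subst h0
        simp [hr']
      · simp only [hr', h0, if_false, add_zero]
        push_cast
        ring
    rw [h4, hy']
    exact h3
  have hΔsq : ¬ IsSquare Δ := by
    rintro ⟨t, ht⟩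
    have h1 : y' ^ 2 = (t : ℝ) ^ 2 := by
      rw [hy2, ht]; push_cast; ring
    have hA' : (2 * A : ℝ) ≠ 0 := by
      have : (A : ℝ) ≠ 0 := by exact_mod_cast hA
      simpa using this
    have hAz : (2 * A : ℤ) ≠ 0 := by omega
    have hirr' : Irrational y' := by
      have h2 : Irrational (((2 * A : ℤ) : ℝ) * y) := hirr.intCast_mul hAz
      have h3 := h2.add_intCast B
      rw [hy']
      convert h3 using 2
      push_cast; ring
    rcases sq_eq_sq_iff_eq_or_eq_neg.1 h1 with h4 | h4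
    · exact hirr' ⟨(t : ℚ), by rw [h4]; push_cast; rfl⟩
    · exact hirr' ⟨-(t : ℚ), by rw [h4]; push_cast; rfl⟩
  obtain ⟨p, hp, hp2, hpb, hns⟩ := exists_prime Δ hΔsq b (by omega)
  have : Fact p.Prime := ⟨hp⟩
  have hbd : ∀ k, |r' k| ≤ ((2 * A.natAbs * M + B.natAbs : ℕ) : ℤ) := by
    intro k
    have h1 := hr k
    have h2 : |2 * A * r k| ≤ 2 * A.natAbs * M := by
      rw [abs_mul, abs_mul]
      have : |(2 : ℤ)| = 2 := by norm_num
      rw [this, Int.natCast_natAbs]
      gcongr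
    have h3 : |(if k = 0 then B else 0 : ℤ)| ≤ B.natAbs := by
      split_ifs
      · rw [Int.natCast_natAbs]
      · simp
    push_cast
    calc |r' k| ≤ |2 * A * r k| + |(if k = 0 then B else 0 : ℤ)| := abs_add_le _ _
      _ ≤ _ := by
        push_cast at h2 h3
        linarith
  obtain ⟨C0, L0, hmain⟩ := nat_form b hb r' _ hbd y' Δ hsum hy2 p hp2 hpb hns
  apply real_form C0 L0
  intro N L hL h1 h2
  refine (hmain N L hL h1 h2).trans ?_
  apply Nat.mul_le_mul_left
  have h3 : #{k ∈ range N | r' k ≠ 0} ≤ #{k ∈ range N | r k ≠ 0} + 1 := by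
    have h4 : ({k ∈ range N | r' k ≠ 0} : Finset ℕ) ⊆ insert 0 {k ∈ range N | r k ≠ 0} := by
      intro k hk
      rw [mem_filter] at hk
      rw [mem_insert, mem_filter]
      by_cases h0 : k = 0
      · exact Or.inl h0
      · right
        refine ⟨hk.1, fun h5 => hk.2 ?_⟩
        simp [hr', h5, h0]
    exact (card_le_card h4).trans (card_insert_le _ _)
  omega

end Run7.h662.DC
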